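import Pool.Agent.H11.PZ.PN

/-!
# Module FT of the board for MP_9f0eeb_nt: bounds for the Fourier transform
helper11
-/

set_option autoImplicit false

open Complex MeasureTheory Set Filter Topology

namespace Pool.Agent.H11.PZ

open Pool.Agent.H28.MZ
open Pool.Agent.H23.GLH (PrimChar)

/-- the entire function -/
noncomputable def FF (a H u x ξ : ℝ) (z : ℂ) : ℂ :=
  cexp ((1 - a) * z - H ^ 2 * z ^ 2 / 4 - u * z * I - 2 * Real.pi * ξ * x * cexp z * I)

theorem FF_diff (a H u x ξ : ℝ) : Differentiable ℂ (FF a H u x ξ) := by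
  unfold FF
  fun_prop

theorem FF_cont (a H u x ξ : ℝ) : Continuous (FF a H u x ξ) := (FF_diff a H u x ξ).continuous

theorem re_aux (p q : ℝ) : ((p : ℂ) + (q : ℂ) * I).re = p := by simp

theorem norm_FF (a H u x ξ v y : ℝ) :
    ‖FF a H u x ξ (v + y * I)‖ = Real.exp ((1 - a) * v - H ^ 2 * (v ^ 2 - y ^ 2) / 4 + u * y
      + 2 * Real.pi * ξ * x * Real.exp v * Real.sin y) := by
  unfold FF
  rw [Complex.norm_exp]
  congr 1
  have e1 : ((1 - (a : ℂ)) * (v + y * I)).re = (1 - a) * v := by
    simp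
  have e2 : ((H : ℂ) ^ 2 * (v + y * I) ^ 2 / 4).re = H ^ 2 * (v ^ 2 - y ^ 2) / 4 := by
    have : (H : ℂ) ^ 2 * (v + y * I) ^ 2 / 4
        = ((H ^ 2 * (v ^ 2 - y ^ 2) / 4 : ℝ) : ℂ) + ((H ^ 2 * (2 * v * y) / 4 : ℝ) : ℂ) * I := by
      push_cast
      linear_combination (H : ℂ) ^ 2 * y ^ 2 / 4 * Complex.I_sq
    rw [this, re_aux]
  have e3 : ((u : ℂ) * (v + y * I) * I).re = - (u * y) := by
    have : (u : ℂ) * (v + y * I) * I = ((-(u * y) : ℝ) : ℂ) + ((u * v : ℝ) : ℂ) * I := by
      push_cast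
      linear_combination (u : ℂ) * y * Complex.I_sq
    rw [this, re_aux]
  have e4 : (2 * (Real.pi : ℂ) * ξ * x * cexp (v + y * I) * I).re
      = - (2 * Real.pi * ξ * x * Real.exp v * Real.sin y) := by
    have : cexp (v + y * I) = ((Real.exp v * Real.cos y : ℝ) : ℂ)
        + ((Real.exp v * Real.sin y : ℝ) : ℂ) * I := by
      rw [Complex.exp_add, Complex.exp_mul_I]
      push_cast
      ring
    have e5 : 2 * (Real.pi : ℂ) * ξ * x * cexp (v + y * I) * I
        = ((-(2 * Real.pi * ξ * x * Real.exp v * Real.sin y) : ℝ) : ℂ)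
          + ((2 * Real.pi * ξ * x * Real.exp v * Real.cos y : ℝ) : ℂ) * I := by
      rw [this]
      push_cast
      linear_combination (2 * (Real.pi : ℂ) * ξ * x * Complex.exp v * Complex.sin y) * Complex.I_sq
    rw [e5, re_aux]
  rw [Complex.sub_re, Complex.sub_re, Complex.sub_re, e1, e2, e3, e4]
  ring

theorem FF_real (a H u x ξ v : ℝ) :
    FF a H u x ξ v = ((Real.exp ((1 - a) * v - H ^ 2 * v ^ 2 / 4) : ℝ) : ℂ) *
      ei (2 * Real.pi * (-ξ) * x * Real.exp v - u * v) := by
  unfold FF ei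
  rw [Complex.ofReal_exp, ← Complex.exp_add]
  congr 1
  push_cast
  ring

/-- change of variables -/
theorem gh_eq (a H u x ξ : ℝ) (hx : 0 < x) :
    gh a H u x ξ = ((x ^ (1 - a) : ℝ) : ℂ) * ∫ v : ℝ, FF a H u x ξ v := by
  unfold gh
  have himg : (fun v : ℝ => x * Real.exp v) '' univ = Ioi 0 := by
    ext y
    simp only [image_univ, mem_range, mem_Ioi]
    constructor
    · rintro ⟨v, rfl⟩
      positivity
    · intro hy
      refine ⟨Real.log (y / x), ?_⟩
      rw [Real.exp_log (by positivity)]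
      field_simp
  have hinj : InjOn (fun v : ℝ => x * Real.exp v) univ := by
    intro v _ w _ h
    have : Real.exp v = Real.exp w := by
      apply mul_left_cancel₀ hx.ne'
      exact h
    exact Real.exp_injective this
  have hder : ∀ v ∈ (univ : Set ℝ), HasDerivWithinAt (fun v : ℝ => x * Real.exp v)
      (x * Real.exp v) univ v := by
    intro v _
    exact ((Real.hasDerivAt_exp v).const_mul x).hasDerivWithinAt
  rw [← himg, MeasureTheory.integral_image_eq_integral_abs_deriv_smul MeasurableSet.univ hder hinj,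
    Measure.restrict_univ, ← MeasureTheory.integral_const_mul]
  congr 1
  funext v
  have hv : 0 < x * Real.exp v := by positivity
  have hlog : Real.log x - Real.log (x * Real.exp v) = - v := by
    rw [Real.log_mul hx.ne' (Real.exp_pos v).ne', Real.log_exp]
    ring
  rw [abs_of_pos hv, Complex.real_smul, FF_real]
  unfold gf
  rw [hlog]
  have e1 : x * Real.exp v * ((x * Real.exp v) ^ (-a) * Real.exp (-(H ^ 2 * (-v) ^ 2 / 4)))
      = x ^ (1 - a) * Real.exp ((1 - a) * v - H ^ 2 * v ^ 2 / 4) := by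
    have e2 : x * Real.exp v * (x * Real.exp v) ^ (-a) = (x * Real.exp v) ^ (1 - a) := by
      rw [sub_eq_add_neg, Real.rpow_add hv, Real.rpow_one]
    rw [← mul_assoc, e2, Real.mul_rpow hx.le (Real.exp_pos v).le, ← Real.exp_mul, mul_assoc,
      ← Real.exp_add]
    congr 2
    ring
  have e3 : ei (u * -v) * ei (-(2 * Real.pi * ξ * (x * Real.exp v)))
      = ei (2 * Real.pi * (-ξ) * x * Real.exp v - u * v) := by
    rw [← ei_add]
    congr 1
    ring
  rw [← e3, ← mul_assoc, ← mul_assoc, ← mul_assoc, ← mul_assoc, ← Complex.ofReal_mul,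
    ← Complex.ofReal_mul, e1, mul_assoc, mul_assoc, mul_assoc]

/-! ## the dominating function -/

/-- the dominating function -/
noncomputable def GG (v : ℝ) : ℝ := Real.exp 36 * Real.exp (-(1 / 16) * v ^ 2)

theorem GG_int : Integrable GG := by
  unfold GG
  exact (integrable_exp_neg_mul_sq (by norm_num)).const_mul _

theorem GG_pos (v : ℝ) : 0 < GG v := by unfold GG; positivity

theorem le_GG (v : ℝ) : Real.exp (3 * |v| - v ^ 2 / 8) ≤ GG v := by
  unfold GG
  rw [← Real.exp_add]
  apply Real.exp_le_exp.mpr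
  have h : |v| ^ 2 = v ^ 2 := sq_abs v
  nlinarith [sq_nonneg (|v| / 4 - 6)]

/-- its integral -/
noncomputable def CC : ℝ := ∫ v, GG v

theorem CC_nonneg : 0 ≤ CC := integral_nonneg fun v => (GG_pos v).le

theorem norm_int_le {f : ℝ → ℂ} {K : ℝ} (h : ∀ v, ‖f v‖ ≤ K * GG v) : ‖∫ v, f v‖ ≤ K * CC := by
  have := norm_integral_le_of_norm_le (GG_int.const_mul K) (Eventually.of_forall h)
  rwa [integral_const_mul] at this

theorem norm_setInt_le {f : ℝ → ℂ} {K : ℝ} (s : Set ℝ) (hs : MeasurableSet s) (hK : 0 ≤ K)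
    (h : ∀ v ∈ s, ‖f v‖ ≤ K * GG v) :
    ‖∫ v in s, f v‖ ≤ K * CC := by
  have h1 : ‖∫ v in s, f v‖ ≤ ∫ v in s, K * GG v := by
    apply norm_integral_le_of_norm_le (GG_int.const_mul K).integrableOn
    rw [ae_restrict_iff' hs]
    exact Eventually.of_forall h
  refine h1.trans ?_
  unfold CC
  rw [← integral_const_mul]
  exact setIntegral_le_integral (GG_int.const_mul K)
    (Eventually.of_forall fun v => mul_nonneg hK (GG_pos v).le)

/-! ## contour shifts -/

theorem rect (a H u x ξ L η : ℝ) :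
    (∫ v in (-L)..L, FF a H u x ξ v) = (∫ v in (-L)..L, FF a H u x ξ (v + η * I))
      - I * (∫ y in (0 : ℝ)..η, FF a H u x ξ (L + y * I))
      + I * (∫ y in (0 : ℝ)..η, FF a H u x ξ (-L + y * I)) := by
  have h := Complex.integral_boundary_rect_eq_zero_of_differentiableOn (FF a H u x ξ)
    ((-L : ℝ) : ℂ) ((L : ℝ) + (η : ℝ) * I) (FF_diff a H u x ξ).differentiableOn
  simp only [Complex.ofReal_re, Complex.ofReal_im, Complex.add_re, Complex.mul_re, Complex.I_re,
    mul_zero, Complex.I_im, mul_one, sub_self, add_zero, Complex.add_im, Complex.mul_im,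
    zero_add, Complex.ofReal_zero, zero_mul, smul_eq_mul] at h
  have h2 : (((-L : ℝ) : ℂ)) = -(L : ℂ) := by push_cast; ring
  rw [h2] at h
  linear_combination h

/-- for a fixed height, the function is integrable -/
theorem FF_int (a H u x ξ η : ℝ) (K : ℝ)
    (h : ∀ v : ℝ, ‖FF a H u x ξ (v + η * I)‖ ≤ K * GG v) :
    Integrable fun v : ℝ => FF a H u x ξ (v + η * I) := by
  refine (GG_int.const_mul K).mono' ?_ (Eventually.of_forall h)
  have hc : Continuous fun v : ℝ => FF a H u x ξ (v + η * I) := by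
    have := FF_cont a H u x ξ
    fun_prop
  exact hc.aestronglyMeasurable

theorem GG_tendsto (K : ℝ) : Tendsto (fun L : ℝ => K * GG L) atTop (𝓝 0) := by
  have h1 : Tendsto (fun L : ℝ => (-(1 / 16 : ℝ)) * L ^ 2) atTop atBot := by
    apply Tendsto.const_mul_atTop_of_neg (by norm_num)
    exact tendsto_pow_atTop (by norm_num)
  have h2 := Real.tendsto_exp_atBot.comp h1
  have h3 := (h2.const_mul (Real.exp 36)).const_mul K
  simpa [GG, Function.comp_def] using h3

theorem GG_neg (v : ℝ) : GG (-v) = GG v := by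
  unfold GG
  rw [neg_sq]

/-- global shift of the line of integration -/
theorem shift (a H u x ξ η : ℝ) (K : ℝ)
    (h : ∀ v y : ℝ, y ∈ uIcc 0 η → ‖FF a H u x ξ (v + y * I)‖ ≤ K * GG v) :
    (∫ v : ℝ, FF a H u x ξ v) = ∫ v : ℝ, FF a H u x ξ (v + η * I) := by
  have h0 : Integrable fun v : ℝ => FF a H u x ξ v := by
    have := FF_int a H u x ξ 0 K (fun v => h v 0 left_mem_uIcc)
    simpa using this
  have h1 : Integrable fun v : ℝ => FF a H u x ξ (v + η * I) :=
    FF_int a H u x ξ η K (fun v => h v η right_mem_uIcc)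
  have t0 := intervalIntegral_tendsto_integral h0 tendsto_neg_atTop_atBot
    (tendsto_id (α := ℝ) (x := atTop))
  have t1 := intervalIntegral_tendsto_integral h1 tendsto_neg_atTop_atBot
    (tendsto_id (α := ℝ) (x := atTop))
  have v1 : Tendsto (fun L : ℝ => I * (∫ y in (0 : ℝ)..η, FF a H u x ξ (L + y * I))) atTop
      (𝓝 0) := by
    refine squeeze_zero_norm (a := fun L => (K * |η|) * GG L) ?_ (GG_tendsto _)
    intro L
    rw [norm_mul, Complex.norm_I, one_mul]
    have := intervalIntegral.norm_integral_le_of_norm_le_const (a := 0) (b := η)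
      (f := fun y : ℝ => FF a H u x ξ (L + y * I)) (C := K * GG L)
      (fun y hy => h L y (uIoc_subset_uIcc hy))
    rw [sub_zero] at this
    calc _ ≤ K * GG L * |η| := this
      _ = _ := by ring
  have v2 : Tendsto (fun L : ℝ => I * (∫ y in (0 : ℝ)..η, FF a H u x ξ (-L + y * I))) atTop
      (𝓝 0) := by
    refine squeeze_zero_norm (a := fun L => (K * |η|) * GG L) ?_ (GG_tendsto _)
    intro L
    rw [norm_mul, Complex.norm_I, one_mul]
    have := intervalIntegral.norm_integral_le_of_norm_le_const (a := 0) (b := η)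
      (f := fun y : ℝ => FF a H u x ξ (-L + y * I)) (C := K * GG L)
      (fun y hy => by
        have := h (-L) y (uIoc_subset_uIcc hy)
        rw [GG_neg] at this
        push_cast at this
        exact this)
    rw [sub_zero] at this
    calc _ ≤ K * GG L * |η| := this
      _ = _ := by ring
  have t2 := (t1.sub v1).add v2
  rw [sub_zero, add_zero] at t2
  refine tendsto_nhds_unique t0 (t2.congr fun L => ?_)
  exact (rect a H u x ξ L η).symm

end Pool.Agent.H11.PZ
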