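import Pool.Agent.H11.PZ.FT

/-!
# Module FT of the board for MP_9f0eeb_nt: the four bounds
helper11
-/

set_option autoImplicit false

open Complex MeasureTheory Set Filter Topology

namespace Pool.Agent.H11.PZ

open Pool.Agent.H28.MZ
open Pool.Agent.H23.GLH (PrimChar)

theorem one_add_sq_le_exp (z : ℝ) (hz : 0 ≤ z) : 1 + z ^ 2 ≤ Real.exp z := by
  have h1 := Real.quadratic_le_exp_of_nonneg (x := z / 2) (by linarith)
  have h2 : Real.exp z = Real.exp (z / 2) * Real.exp (z / 2) := by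
    rw [← Real.exp_add]; congr 1; ring
  rw [h2]
  have h3 : (1 + z / 2 + (z / 2) ^ 2 / 2) * (1 + z / 2 + (z / 2) ^ 2 / 2)
      ≤ Real.exp (z / 2) * Real.exp (z / 2) := by
    apply mul_self_le_mul_self _ h1
    positivity
  refine le_trans ?_ h3
  nlinarith [mul_nonneg hz (sq_nonneg (z - 2)), mul_nonneg hz (sq_nonneg z), sq_nonneg z,
    mul_nonneg hz hz, sq_nonneg (z * z)]

theorem exp_neg_le (z : ℝ) (hz : 0 ≤ z) : Real.exp (-z) ≤ 1 / (1 + z ^ 2) := by
  rw [Real.exp_neg, inv_eq_one_div]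
  exact one_div_le_one_div_of_le (by positivity) (one_add_sq_le_exp z hz)

theorem combine (w ξ : ℝ) (hw : 0 < w) :
    1 / (1 + (w * ξ) ^ 2) ≤ (1 + 1 / w ^ 2) / (1 + ξ ^ 2) := by
  rw [div_le_div_iff₀ (by positivity) (by positivity)]
  have : (1 + 1 / w ^ 2) * (1 + (w * ξ) ^ 2) = 1 + ξ ^ 2 + (w * ξ) ^ 2 + 1 / w ^ 2 := by
    field_simp
    ring
  rw [this]
  have h1 : 0 ≤ (w * ξ) ^ 2 := sq_nonneg _
  have h2 : 0 ≤ 1 / w ^ 2 := by positivity
  linarith

/-- the decay in `ξ` coming from a factor `exp (-w |ξ|)` -/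
theorem exp_decay (w ξ z : ℝ) (hw : 0 < w) (hz : w * |ξ| ≤ z) :
    Real.exp (-z) ≤ (1 + 1 / w ^ 2) / (1 + ξ ^ 2) := by
  have h0 : 0 ≤ w * |ξ| := by positivity
  calc Real.exp (-z) ≤ Real.exp (-(w * |ξ|)) := Real.exp_le_exp.mpr (by linarith)
    _ ≤ 1 / (1 + (w * |ξ|) ^ 2) := exp_neg_le _ h0
    _ ≤ (1 + 1 / w ^ 2) / (1 + |ξ| ^ 2) := combine w |ξ| hw
    _ = _ := by rw [sq_abs]

theorem lin_le (a v : ℝ) (ha : 0 ≤ a) (ha1 : a ≤ 1) : (1 - a) * v ≤ |v| := by
  have h1 : v ≤ |v| := le_abs_self v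
  have h2 : 0 ≤ |v| := abs_nonneg v
  nlinarith

theorem sq_le_H (H v : ℝ) (hH : 1 ≤ H) : v ^ 2 ≤ H ^ 2 * v ^ 2 := by
  have : 1 ≤ H ^ 2 := by nlinarith
  nlinarith [sq_nonneg v]

/-- (A) -/
theorem A_bound (a H u x ξ η : ℝ) (ha : 0 ≤ a) (ha1 : a ≤ 1) (hH : 1 ≤ H) (hu : 0 ≤ u)
    (hx : 1 ≤ x) (hξ : 0 ≤ ξ) (hη : 0 < η) (hη1 : η ≤ 1 / 10) :
    ‖∫ v : ℝ, FF a H u x ξ v‖
      ≤ Real.exp (H ^ 2 * η ^ 2 / 4 - u * η) * ((1 + 1 / η ^ 2) / (1 + ξ ^ 2)) * CC := by
  have hshift := shift a H u x ξ (-η) (Real.exp (H ^ 2 * η ^ 2 / 4)) (by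
    intro v y hy
    rw [uIcc_of_ge (by linarith)] at hy
    obtain ⟨hy1, hy2⟩ := hy
    rw [norm_FF]
    have hs : Real.sin y ≤ 0 := Real.sin_nonpos_of_nonpos_of_neg_pi_le hy2 (by
      have := Real.pi_gt_three
      linarith)
    have hp : 2 * Real.pi * ξ * x * Real.exp v * Real.sin y ≤ 0 := by
      apply mul_nonpos_of_nonneg_of_nonpos _ hs
      have := Real.pi_pos
      positivity
    have hq : u * y ≤ 0 := mul_nonpos_of_nonneg_of_nonpos hu hy2
    have hr : H ^ 2 * y ^ 2 ≤ H ^ 2 * η ^ 2 := by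
      apply mul_le_mul_of_nonneg_left _ (by positivity)
      nlinarith
    have h1 := lin_le a v ha ha1
    have h2 := sq_le_H H v hH
    calc _ ≤ Real.exp (H ^ 2 * η ^ 2 / 4 + (3 * |v| - v ^ 2 / 8)) := by
          apply Real.exp_le_exp.mpr
          nlinarith [abs_nonneg v, sq_nonneg v]
      _ = Real.exp (H ^ 2 * η ^ 2 / 4) * Real.exp (3 * |v| - v ^ 2 / 8) := Real.exp_add _ _
      _ ≤ _ := by
          gcongr
          exact le_GG v)
  rw [hshift]
  apply norm_int_le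
  intro v
  rw [norm_FF]
  have hs : η / 2 ≤ Real.sin η := by
    have := Real.sin_gt_sub_cube hη
    nlinarith [mul_pos hη hη, mul_pos (mul_pos hη hη) hη]
  have hev : 0 < Real.exp v := Real.exp_pos v
  have hw : 0 < Real.exp v * η := by positivity
  have hdec := exp_decay (Real.exp v * η) ξ (2 * Real.pi * ξ * x * Real.exp v * Real.sin η) hw (by
    rw [abs_of_nonneg hξ]
    have h3 := Real.pi_gt_three
    have h4 : 1 ≤ Real.pi * x := by nlinarith
    have h5 : 0 ≤ ξ * Real.exp v * η := by positivity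
    calc Real.exp v * η * ξ = 1 * (ξ * Real.exp v * η) := by ring
      _ ≤ (Real.pi * x) * (ξ * Real.exp v * η) := by gcongr
      _ = 2 * Real.pi * ξ * x * Real.exp v * (η / 2) := by ring
      _ ≤ _ := by gcongr)
  have hpow : 1 + 1 / (Real.exp v * η) ^ 2 ≤ Real.exp (2 * |v|) * (1 + 1 / η ^ 2) := by
    have e1 : 1 / (Real.exp v * η) ^ 2 = Real.exp (-(2 * v)) * (1 / η ^ 2) := by
      rw [Real.exp_neg, mul_pow, ← Real.exp_nat_mul]
      push_cast
      field_simp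
    have e2 : Real.exp (-(2 * v)) ≤ Real.exp (2 * |v|) := by
      apply Real.exp_le_exp.mpr
      have := neg_le_abs v
      linarith
    have e3 : 1 ≤ Real.exp (2 * |v|) := Real.one_le_exp (by positivity)
    rw [e1]
    have e4 : 0 ≤ 1 / η ^ 2 := by positivity
    nlinarith
  have h1 := lin_le a v ha ha1
  have h2 := sq_le_H H v hH
  have e5 : (1 - a) * v - H ^ 2 * (v ^ 2 - (-η) ^ 2) / 4 + u * -η
      + 2 * Real.pi * ξ * x * Real.exp v * Real.sin (-η)
      = (H ^ 2 * η ^ 2 / 4 - u * η) + ((1 - a) * v - H ^ 2 * v ^ 2 / 4)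
        + (-(2 * Real.pi * ξ * x * Real.exp v * Real.sin η)) := by
    rw [Real.sin_neg]
    ring
  rw [e5, Real.exp_add, Real.exp_add]
  have e6 : Real.exp ((1 - a) * v - H ^ 2 * v ^ 2 / 4) * Real.exp (2 * |v|) ≤ GG v := by
    rw [← Real.exp_add]
    refine le_trans (Real.exp_le_exp.mpr ?_) (le_GG v)
    nlinarith [sq_nonneg v]
  calc Real.exp (H ^ 2 * η ^ 2 / 4 - u * η) * Real.exp ((1 - a) * v - H ^ 2 * v ^ 2 / 4)
        * Real.exp (-(2 * Real.pi * ξ * x * Real.exp v * Real.sin η))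
      ≤ Real.exp (H ^ 2 * η ^ 2 / 4 - u * η) * Real.exp ((1 - a) * v - H ^ 2 * v ^ 2 / 4)
        * ((1 + 1 / (Real.exp v * η) ^ 2) / (1 + ξ ^ 2)) := by gcongr
    _ ≤ Real.exp (H ^ 2 * η ^ 2 / 4 - u * η) * Real.exp ((1 - a) * v - H ^ 2 * v ^ 2 / 4)
        * ((Real.exp (2 * |v|) * (1 + 1 / η ^ 2)) / (1 + ξ ^ 2)) := by gcongr
    _ = Real.exp (H ^ 2 * η ^ 2 / 4 - u * η) * ((1 + 1 / η ^ 2) / (1 + ξ ^ 2))
        * (Real.exp ((1 - a) * v - H ^ 2 * v ^ 2 / 4) * Real.exp (2 * |v|)) := by ring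
    _ ≤ _ := by gcongr

/-- (B) -/
theorem B_bound (a H u x ξ η : ℝ) (ha : 0 ≤ a) (ha1 : a ≤ 1) (hH : 1 ≤ H) (hu : 0 ≤ u)
    (hx : 1 ≤ x) (hξ : ξ * x < -(u / Real.pi)) (hη : 0 < η) (hη1 : η ≤ 1 / 10) :
    ‖∫ v : ℝ, FF a H u x ξ v‖
      ≤ Real.exp (H ^ 2 * η ^ 2 / 4) * (Real.exp (-(9 / 100 * u * η))
        + Real.exp (u * η - H ^ 2 / 32)) * ((1 + 16 / η ^ 2) / (1 + ξ ^ 2)) * CC := by
  have hpi := Real.pi_pos
  have hpi3 := Real.pi_gt_three
  have hξ0 : ξ < 0 := by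
    by_contra hc
    push Not at hc
    have h1 : 0 ≤ ξ * x := by positivity
    have h2 : 0 ≤ u / Real.pi := by positivity
    linarith
  -- the parameter lam
  obtain ⟨lam, hlam⟩ : ∃ lam : ℝ, lam = -(2 * Real.pi * ξ * x) := ⟨_, rfl⟩
  have hlu : 2 * u < lam := by
    rw [hlam]
    have h1 : Real.pi * (ξ * x) < Real.pi * (-(u / Real.pi)) := by gcongr
    have h2 : Real.pi * (-(u / Real.pi)) = -u := by field_simp
    rw [h2] at h1
    linarith
  have hl0 : 0 ≤ lam := by linarith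
  have hlξ : 6 * |ξ| ≤ lam := by
    rw [hlam, abs_of_neg hξ0]
    have h1 : 6 ≤ 2 * Real.pi * x := by nlinarith
    nlinarith
  have hsin : 99 / 100 * η ≤ Real.sin η := by
    have h1 := Real.sin_gt_sub_cube hη
    nlinarith [mul_pos hη hη, mul_pos (mul_pos hη hη) hη]
  have hshift := shift a H u x ξ η (Real.exp (H ^ 2 * η ^ 2 / 4 + u * η)) (by
    intro v y hy
    rw [uIcc_of_le hη.le] at hy
    obtain ⟨hy1, hy2⟩ := hy
    rw [norm_FF]
    have hs : 0 ≤ Real.sin y := Real.sin_nonneg_of_nonneg_of_le_pi hy1 (by linarith)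
    have hp : 2 * Real.pi * ξ * x * Real.exp v * Real.sin y ≤ 0 := by
      have e : 2 * Real.pi * ξ * x * Real.exp v * Real.sin y
          = -(lam * (Real.exp v * Real.sin y)) := by rw [hlam]; ring
      rw [e]
      have : 0 ≤ lam * (Real.exp v * Real.sin y) := by positivity
      linarith
    have hq : u * y ≤ u * η := by gcongr
    have hr : H ^ 2 * y ^ 2 ≤ H ^ 2 * η ^ 2 := by
      apply mul_le_mul_of_nonneg_left _ (by positivity)
      nlinarith
    have h1 := lin_le a v ha ha1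
    have h2 := sq_le_H H v hH
    calc _ ≤ Real.exp ((H ^ 2 * η ^ 2 / 4 + u * η) + (3 * |v| - v ^ 2 / 8)) := by
          apply Real.exp_le_exp.mpr
          nlinarith [abs_nonneg v, sq_nonneg v]
      _ = Real.exp (H ^ 2 * η ^ 2 / 4 + u * η) * Real.exp (3 * |v| - v ^ 2 / 8) :=
          Real.exp_add _ _
      _ ≤ _ := by
          gcongr
          exact le_GG v)
  rw [hshift]
  apply norm_int_le
  intro v
  rw [norm_FF]
  have hev : 0 < Real.exp v := Real.exp_pos v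
  have h1 := lin_le a v ha ha1
  have h2 := sq_le_H H v hH
  have e5 : (1 - a) * v - H ^ 2 * (v ^ 2 - η ^ 2) / 4 + u * η
      + 2 * Real.pi * ξ * x * Real.exp v * Real.sin η
      = H ^ 2 * η ^ 2 / 4 + ((1 - a) * v - H ^ 2 * v ^ 2 / 4) + (u * η
        - lam * (Real.exp v * Real.sin η)) := by
    rw [hlam]
    ring
  rw [e5, Real.exp_add, Real.exp_add]
  have hpos1 : 0 < 1 + ξ ^ 2 := by positivity
  rcases le_or_gt (-(1 / 2)) v with hv | hv
  · -- the centre
    have he : 6 / 10 ≤ Real.exp v := by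
      have h3 : Real.exp (-(1 / 2)) ≤ Real.exp v := Real.exp_le_exp.mpr hv
      have h4 : Real.exp (-(1 / 2)) * Real.exp (-(1 / 2)) = Real.exp (-1) := by
        rw [← Real.exp_add]; norm_num
      have h5 := Real.exp_neg_one_gt_d9
      have h6 : 6 / 10 ≤ Real.exp (-(1 / 2)) := by
        by_contra hc
        push Not at hc
        nlinarith [Real.exp_pos (-(1 / 2))]
      linarith
    have hprod : 59 / 100 * η ≤ Real.exp v * Real.sin η := by
      calc 59 / 100 * η ≤ 6 / 10 * (99 / 100 * η) := by nlinarith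
        _ ≤ Real.exp v * Real.sin η := by gcongr
    have hA : u * η - lam * (Real.exp v * Real.sin η)
        ≤ -(9 / 100 * u * η) + -(45 / 1000 * lam * η) := by
      have h3 : lam * (59 / 100 * η) ≤ lam * (Real.exp v * Real.sin η) := by gcongr
      have h4 : 0 ≤ (lam - 2 * u) * η := by
        apply mul_nonneg _ hη.le
        linarith
      nlinarith
    have hdec := exp_decay (η / 4) ξ (45 / 1000 * lam * η) (by positivity) (by
      have : 6 * |ξ| * η ≤ lam * η := by gcongr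
      nlinarith [mul_nonneg (abs_nonneg ξ) hη.le])
    have e7 : 1 / (η / 4) ^ 2 = 16 / η ^ 2 := by field_simp; norm_num
    rw [e7] at hdec
    have hB : Real.exp (u * η - lam * (Real.exp v * Real.sin η))
        ≤ Real.exp (-(9 / 100 * u * η)) * ((1 + 16 / η ^ 2) / (1 + ξ ^ 2)) := by
      calc _ ≤ Real.exp (-(9 / 100 * u * η) + -(45 / 1000 * lam * η)) := Real.exp_le_exp.mpr hA
        _ = Real.exp (-(9 / 100 * u * η)) * Real.exp (-(45 / 1000 * lam * η)) := Real.exp_add _ _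
        _ ≤ _ := by gcongr
    have hC : Real.exp ((1 - a) * v - H ^ 2 * v ^ 2 / 4) ≤ GG v := by
      refine le_trans (Real.exp_le_exp.mpr ?_) (le_GG v)
      nlinarith [sq_nonneg v, abs_nonneg v]
    have hGv := GG_pos v
    calc _ ≤ Real.exp (H ^ 2 * η ^ 2 / 4) * GG v *
          (Real.exp (-(9 / 100 * u * η)) * ((1 + 16 / η ^ 2) / (1 + ξ ^ 2))) := by
            gcongr
      _ = Real.exp (H ^ 2 * η ^ 2 / 4) * (Real.exp (-(9 / 100 * u * η)) + 0)
          * ((1 + 16 / η ^ 2) / (1 + ξ ^ 2)) * GG v := by ring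
      _ ≤ _ := by
        have := GG_pos v
        gcongr
        positivity
  · -- far to the left
    have hw : 0 < Real.exp v * η := by positivity
    have hdec := exp_decay (Real.exp v * η) ξ (lam * (Real.exp v * Real.sin η)) hw (by
      have h3 : 0 ≤ Real.exp v * η * |ξ| := by positivity
      calc Real.exp v * η * |ξ| ≤ 594 / 100 * (Real.exp v * η * |ξ|) := by linarith
        _ = 6 * |ξ| * (Real.exp v * (99 / 100 * η)) := by ring
        _ ≤ lam * (Real.exp v * Real.sin η) := by gcongr)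
    have hpow : 1 + 1 / (Real.exp v * η) ^ 2 ≤ Real.exp (2 * |v|) * (1 + 16 / η ^ 2) := by
      have e1 : 1 / (Real.exp v * η) ^ 2 = Real.exp (-(2 * v)) * (1 / η ^ 2) := by
        rw [Real.exp_neg, mul_pow, ← Real.exp_nat_mul]
        push_cast
        field_simp
      have e2 : Real.exp (-(2 * v)) ≤ Real.exp (2 * |v|) := by
        apply Real.exp_le_exp.mpr
        have := neg_le_abs v
        linarith
      have e3 : 1 ≤ Real.exp (2 * |v|) := Real.one_le_exp (by positivity)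
      rw [e1]
      have e4 : 0 ≤ 1 / η ^ 2 := by positivity
      have e5 : 16 / η ^ 2 = 16 * (1 / η ^ 2) := by ring
      rw [e5]
      nlinarith
    have hC : Real.exp ((1 - a) * v - H ^ 2 * v ^ 2 / 4) * Real.exp (2 * |v|)
        ≤ Real.exp (-(H ^ 2 / 32)) * GG v := by
      rw [← Real.exp_add]
      have h3 : H ^ 2 / 32 ≤ H ^ 2 * v ^ 2 / 8 := by
        have : 1 / 4 ≤ v ^ 2 := by nlinarith
        have : H ^ 2 * (1 / 4) ≤ H ^ 2 * v ^ 2 := by gcongr
        linarith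
      calc _ ≤ Real.exp (-(H ^ 2 / 32) + (3 * |v| - v ^ 2 / 8)) := by
            apply Real.exp_le_exp.mpr
            nlinarith [sq_nonneg v]
        _ = Real.exp (-(H ^ 2 / 32)) * Real.exp (3 * |v| - v ^ 2 / 8) := Real.exp_add _ _
        _ ≤ _ := by
            gcongr
            exact le_GG v
    have e8 : Real.exp (u * η - lam * (Real.exp v * Real.sin η))
        = Real.exp (u * η) * Real.exp (-(lam * (Real.exp v * Real.sin η))) := by
      rw [← Real.exp_add]; congr 1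
    rw [e8]
    calc _ ≤ Real.exp (H ^ 2 * η ^ 2 / 4) * Real.exp ((1 - a) * v - H ^ 2 * v ^ 2 / 4) *
          (Real.exp (u * η) * ((Real.exp (2 * |v|) * (1 + 16 / η ^ 2)) / (1 + ξ ^ 2))) := by
            gcongr
            exact hdec.trans (by gcongr)
      _ = Real.exp (H ^ 2 * η ^ 2 / 4) * Real.exp (u * η) * ((1 + 16 / η ^ 2) / (1 + ξ ^ 2))
          * (Real.exp ((1 - a) * v - H ^ 2 * v ^ 2 / 4) * Real.exp (2 * |v|)) := by ring
      _ ≤ Real.exp (H ^ 2 * η ^ 2 / 4) * Real.exp (u * η) * ((1 + 16 / η ^ 2) / (1 + ξ ^ 2))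
          * (Real.exp (-(H ^ 2 / 32)) * GG v) := by gcongr
      _ = Real.exp (H ^ 2 * η ^ 2 / 4) * (0 + Real.exp (u * η - H ^ 2 / 32))
          * ((1 + 16 / η ^ 2) / (1 + ξ ^ 2)) * GG v := by
            rw [sub_eq_add_neg, Real.exp_add]
            ring
      _ ≤ _ := by
        have := GG_pos v
        gcongr
        positivity

end Pool.Agent.H11.PZ
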