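import Pool.Agent.H11.PZ.FT2

/-!
# Module FT of the board for MP_9f0eeb_nt: the middle ranges and the result
helper11
-/

set_option autoImplicit false

open Complex MeasureTheory Set Filter Topology

namespace Pool.Agent.H11.PZ

open Pool.Agent.H28.MZ
open Pool.Agent.H23.GLH (PrimChar)

theorem norm_FF_real (a H u x ξ v : ℝ) :
    ‖FF a H u x ξ v‖ = Real.exp ((1 - a) * v - H ^ 2 * v ^ 2 / 4) := by
  rw [FF_real, norm_mul, norm_ei, mul_one, Complex.norm_real, Real.norm_eq_abs,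
    abs_of_pos (Real.exp_pos _)]

theorem FF_real_int (a H u x ξ : ℝ) (ha : 0 ≤ a) (ha1 : a ≤ 1) (hH : 1 ≤ H) :
    Integrable fun v : ℝ => FF a H u x ξ v := by
  refine (GG_int.const_mul 1).mono' ?_ (Eventually.of_forall fun v => ?_)
  · have hc : Continuous fun v : ℝ => FF a H u x ξ v := by
      have := FF_cont a H u x ξ
      fun_prop
    exact hc.aestronglyMeasurable
  · rw [norm_FF_real, one_mul]
    have h1 := lin_le a v ha ha1
    have h2 := sq_le_H H v hH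
    refine le_trans (Real.exp_le_exp.mpr ?_) (le_GG v)
    nlinarith [sq_nonneg v, abs_nonneg v]

/-- (D) cutting the tails -/
theorem D_bound (a H u x ξ v₀ : ℝ) (ha : 0 ≤ a) (ha1 : a ≤ 1) (hH : 1 ≤ H) (hv : 0 ≤ v₀) :
    ‖(∫ v : ℝ, FF a H u x ξ v) - ∫ v in (-v₀)..v₀, FF a H u x ξ v‖
      ≤ Real.exp (-(H ^ 2 * v₀ ^ 2 / 8)) * CC := by
  have hint := FF_real_int a H u x ξ ha ha1 hH
  rw [intervalIntegral.integral_of_le (by linarith)]
  have h1 := integral_add_compl (measurableSet_Ioc (a := -v₀) (b := v₀)) hint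
  rw [← h1, add_sub_cancel_left]
  apply norm_setInt_le _ measurableSet_Ioc.compl (Real.exp_pos _).le
  intro v hv'
  rw [norm_FF_real]
  have h2 : v₀ ^ 2 ≤ v ^ 2 := by
    rw [mem_compl_iff, mem_Ioc, not_and_or, not_lt, not_le] at hv'
    rcases hv' with h | h <;> nlinarith
  have h3 := lin_le a v ha ha1
  have h4 := sq_le_H H v hH
  have h5 : H ^ 2 * v₀ ^ 2 ≤ H ^ 2 * v ^ 2 := by gcongr
  calc _ ≤ Real.exp (-(H ^ 2 * v₀ ^ 2 / 8) + (3 * |v| - v ^ 2 / 8)) := by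
        apply Real.exp_le_exp.mpr
        nlinarith [abs_nonneg v]
    _ = Real.exp (-(H ^ 2 * v₀ ^ 2 / 8)) * Real.exp (3 * |v| - v ^ 2 / 8) := Real.exp_add _ _
    _ ≤ _ := by
        gcongr
        exact le_GG v

theorem C_point (a H u x ξ η v y : ℝ) (ha : 0 ≤ a) (ha1 : a ≤ 1) (hu : 0 ≤ u)
    (hx : 1 ≤ x) (hξ : -(u / (4 * Real.pi)) < ξ * x) (hξ0 : ξ < 0)
    (hη1 : η ≤ 1 / 10) (hv : v ≤ 1 / 10) (hy : y ∈ Icc (-η) 0) :
    ‖FF a H u x ξ (v + y * I)‖
      ≤ Real.exp (|v| - H ^ 2 * v ^ 2 / 4 + H ^ 2 * y ^ 2 / 4 + 44 / 100 * u * y) := by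
  obtain ⟨hy1, hy2⟩ := hy
  have hpi := Real.pi_pos
  rw [norm_FF]
  apply Real.exp_le_exp.mpr
  have h1 := lin_le a v ha ha1
  obtain ⟨lam, hlam⟩ : ∃ lam : ℝ, lam = -(2 * Real.pi * ξ * x) := ⟨_, rfl⟩
  have hlu : lam < u / 2 := by
    rw [hlam]
    have h1 : Real.pi * (-(u / (4 * Real.pi))) < Real.pi * (ξ * x) := by gcongr
    have h2 : Real.pi * (-(u / (4 * Real.pi))) = -u / 4 := by field_simp
    rw [h2] at h1
    linarith
  have hl0 : 0 ≤ lam := by
    rw [hlam]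
    have : 0 ≤ Real.pi * (-ξ) * x := by
      have : 0 ≤ -ξ := by linarith
      positivity
    linarith
  have hs : -Real.sin y ≤ -y := by
    have := Real.sin_le (x := -y) (by linarith)
    rw [Real.sin_neg] at this
    linarith
  have hs0 : 0 ≤ -Real.sin y := by
    have := Real.sin_nonneg_of_nonneg_of_le_pi (x := -y) (by linarith) (by
      have := Real.pi_gt_three
      linarith)
    rw [Real.sin_neg] at this
    exact this
  have hexp : Real.exp v ≤ 112 / 100 := by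
    have h3 : Real.exp v ≤ Real.exp (1 / 10) := Real.exp_le_exp.mpr hv
    have h4 := Real.exp_bound_div_one_sub_of_interval (x := 1 / 10) (by norm_num) (by norm_num)
    refine h3.trans (h4.trans (by norm_num))
  have h5 : 2 * Real.pi * ξ * x * Real.exp v * Real.sin y ≤ 56 / 100 * u * (-y) := by
    have e : 2 * Real.pi * ξ * x * Real.exp v * Real.sin y
        = lam * (Real.exp v * (-Real.sin y)) := by rw [hlam]; ring
    rw [e]
    calc lam * (Real.exp v * (-Real.sin y)) ≤ (u / 2) * (112 / 100 * (-y)) := by gcongr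
      _ = 56 / 100 * u * (-y) := by ring
  nlinarith

/-- (C) -/
theorem C_bound (a H u x ξ η : ℝ) (ha : 0 ≤ a) (ha1 : a ≤ 1) (hH : 1 ≤ H) (hu : 0 ≤ u)
    (hx : 1 ≤ x) (hξ : -(u / (4 * Real.pi)) < ξ * x) (hξ0 : ξ < 0) (hη : 0 < η)
    (hη1 : η ≤ 1 / 10) :
    ‖∫ v : ℝ, FF a H u x ξ v‖
      ≤ Real.exp (H ^ 2 * η ^ 2 / 4 - 44 / 100 * u * η) * CC
        + 2 * Real.exp (1 - H ^ 2 / 400 + H ^ 2 * η ^ 2 / 4) + Real.exp (-(H ^ 2 / 800)) * CC := by
  have hD := D_bound a H u x ξ (1 / 10) ha ha1 hH (by norm_num)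
  have hR := rect a H u x ξ (1 / 10) (-η)
  have hCC := CC_nonneg
  -- bottom
  have b1 : ‖∫ v in (-(1 / 10 : ℝ))..(1 / 10), FF a H u x ξ (v + (-η : ℝ) * I)‖
      ≤ Real.exp (H ^ 2 * η ^ 2 / 4 - 44 / 100 * u * η) * CC := by
    rw [intervalIntegral.integral_of_le (by norm_num)]
    apply norm_setInt_le _ measurableSet_Ioc (Real.exp_pos _).le
    intro v hv
    refine (C_point a H u x ξ η v (-η) ha ha1 hu hx hξ hξ0 hη1 hv.2
      ⟨le_rfl, by linarith⟩).trans ?_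
    have h4 := sq_le_H H v hH
    calc _ ≤ Real.exp ((H ^ 2 * η ^ 2 / 4 - 44 / 100 * u * η) + (3 * |v| - v ^ 2 / 8)) := by
          apply Real.exp_le_exp.mpr
          nlinarith [abs_nonneg v, sq_nonneg v]
      _ = _ := Real.exp_add _ _
      _ ≤ _ := by
          gcongr
          exact le_GG v
  -- sides
  have hside : ∀ v : ℝ, |v| = 1 / 10 → ∀ y ∈ uIoc (0 : ℝ) (-η), ‖FF a H u x ξ (v + y * I)‖
      ≤ Real.exp (1 - H ^ 2 / 400 + H ^ 2 * η ^ 2 / 4) := by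
    intro v hv y hy
    rw [uIoc_of_ge (by linarith)] at hy
    have hvle : v ≤ 1 / 10 := by rw [← hv]; exact le_abs_self v
    refine (C_point a H u x ξ η v y ha ha1 hu hx hξ hξ0 hη1 hvle ⟨hy.1.le, hy.2⟩).trans ?_
    apply Real.exp_le_exp.mpr
    have hv2 : v ^ 2 = 1 / 100 := by rw [← sq_abs, hv]; norm_num
    rw [hv, hv2]
    have h5 : H ^ 2 * y ^ 2 ≤ H ^ 2 * η ^ 2 := by
      have : y ^ 2 ≤ η ^ 2 := by nlinarith [hy.1, hy.2]
      gcongr
    have h6 : 44 / 100 * u * y ≤ 0 := by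
      apply mul_nonpos_of_nonneg_of_nonpos _ hy.2
      positivity
    linarith
  have b2 : ‖∫ y in (0 : ℝ)..(-η), FF a H u x ξ ((1 / 10 : ℝ) + y * I)‖
      ≤ Real.exp (1 - H ^ 2 / 400 + H ^ 2 * η ^ 2 / 4) := by
    have := intervalIntegral.norm_integral_le_of_norm_le_const (a := 0) (b := -η)
      (f := fun y : ℝ => FF a H u x ξ ((1 / 10 : ℝ) + y * I))
      (C := Real.exp (1 - H ^ 2 / 400 + H ^ 2 * η ^ 2 / 4))
      (fun y hy => hside (1 / 10) (by norm_num) y hy)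
    refine this.trans ?_
    rw [sub_zero, abs_neg, abs_of_pos hη]
    have := Real.exp_pos (1 - H ^ 2 / 400 + H ^ 2 * η ^ 2 / 4)
    nlinarith
  have b3 : ‖∫ y in (0 : ℝ)..(-η), FF a H u x ξ (-(1 / 10 : ℝ) + y * I)‖
      ≤ Real.exp (1 - H ^ 2 / 400 + H ^ 2 * η ^ 2 / 4) := by
    have := intervalIntegral.norm_integral_le_of_norm_le_const (a := 0) (b := -η)
      (f := fun y : ℝ => FF a H u x ξ (-(1 / 10 : ℝ) + y * I))
      (C := Real.exp (1 - H ^ 2 / 400 + H ^ 2 * η ^ 2 / 4))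
      (fun y hy => by
        have := hside (-(1 / 10)) (by norm_num) y hy
        push_cast at this ⊢
        exact this)
    refine this.trans ?_
    rw [sub_zero, abs_neg, abs_of_pos hη]
    have := Real.exp_pos (1 - H ^ 2 / 400 + H ^ 2 * η ^ 2 / 4)
    nlinarith
  have b4 : ‖∫ v in (-(1 / 10 : ℝ))..(1 / 10), FF a H u x ξ v‖
      ≤ Real.exp (H ^ 2 * η ^ 2 / 4 - 44 / 100 * u * η) * CC
        + 2 * Real.exp (1 - H ^ 2 / 400 + H ^ 2 * η ^ 2 / 4) := by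
    rw [hR]
    refine (norm_add_le _ _).trans ?_
    refine (add_le_add_left (norm_sub_le _ _) _).trans ?_
    rw [norm_mul, norm_mul, Complex.norm_I, one_mul, one_mul]
    linarith
  have e1 : H ^ 2 * (1 / 10) ^ 2 / 8 = H ^ 2 / 800 := by ring
  rw [e1] at hD
  have h7 : ‖∫ v : ℝ, FF a H u x ξ v‖
      ≤ ‖(∫ v : ℝ, FF a H u x ξ v) - ∫ v in (-(1 / 10))..(1 / 10), FF a H u x ξ v‖
        + ‖∫ v in (-(1 / 10 : ℝ))..(1 / 10), FF a H u x ξ v‖ := by
    have := norm_add_le ((∫ v : ℝ, FF a H u x ξ v) - ∫ v in (-(1 / 10))..(1 / 10), FF a H u x ξ v)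
      (∫ v in (-(1 / 10 : ℝ))..(1 / 10), FF a H u x ξ v)
    rwa [sub_add_cancel] at this
  linarith

end Pool.Agent.H11.PZ
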