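import Pool.Agent.H11.PZ.FT3

/-!
# Module FT of the board for MP_9f0eeb_nt: the result
helper11
-/

set_option autoImplicit false

open Complex MeasureTheory Set Filter Topology

namespace Pool.Agent.H11.PZ

open Pool.Agent.H28.MZ
open Pool.Agent.H23.GLH (PrimChar)

/-- `exp (-T^{2ε}/2000)` beats every power -/
theorem exp_beats (ε A D : ℝ) (hε : 0 < ε) : ∃ T₀ : ℝ, 1000 ≤ T₀ ∧ ∀ T : ℝ, T₀ ≤ T →
    D * T ^ 14 * Real.exp (-(T ^ (2 * ε) / 2000)) ≤ T ^ (-A) := by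
  have h1 := isLittleO_exp_neg_mul_rpow_atTop (a := 1 / 2000) (by norm_num)
    (-(A + 15) / (2 * ε))
  have h2 : Tendsto (fun T : ℝ => T ^ (2 * ε)) atTop atTop := tendsto_rpow_atTop (by linarith)
  have h3 := (h1.comp_tendsto h2).bound (show (0 : ℝ) < 1 by norm_num)
  rw [eventually_atTop] at h3
  obtain ⟨T₁, hT₁⟩ := h3
  refine ⟨max 1000 (max T₁ |D|), le_max_left _ _, ?_⟩
  intro T hT
  have hT1 : 1000 ≤ T := (le_max_left _ _).trans hT
  have hT2 : T₁ ≤ T := (le_max_left _ _).trans ((le_max_right _ _).trans hT)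
  have hT3 : |D| ≤ T := (le_max_right _ _).trans ((le_max_right _ _).trans hT)
  have hT0 : 0 < T := by linarith
  have h4 := hT₁ T hT2
  simp only [Function.comp_apply, one_mul] at h4
  rw [Real.norm_eq_abs, abs_of_pos (Real.exp_pos _), Real.norm_eq_abs, abs_of_nonneg (by positivity),
    ← Real.rpow_mul hT0.le] at h4
  have e1 : 2 * ε * (-(A + 15) / (2 * ε)) = -(A + 15) := by field_simp
  have e2 : -(1 / 2000) * T ^ (2 * ε) = -(T ^ (2 * ε) / 2000) := by ring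
  rw [e1, e2] at h4
  have e3 : T ^ (-(A + 15)) = T ^ (-A) * (T ^ 15)⁻¹ := by
    rw [neg_add, Real.rpow_add hT0, Real.rpow_neg hT0.le 15]
    congr 2
    norm_cast
  calc D * T ^ 14 * Real.exp (-(T ^ (2 * ε) / 2000))
      ≤ |D| * T ^ 14 * Real.exp (-(T ^ (2 * ε) / 2000)) := by
        gcongr
        exact le_abs_self D
    _ ≤ T * T ^ 14 * T ^ (-(A + 15)) := by gcongr
    _ = T ^ (-A) := by
        rw [e3]
        field_simp

/-- the numerical facts used in all four cases -/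
theorem facts (ε T u : ℝ) (hε : 0 < ε) (hε1 : ε ≤ 1 / 10) (hT : 1000 ≤ T) (hu : T ≤ u)
    (hu2 : u ≤ 2 * T) :
    1 ≤ T ^ (2 * ε) ∧ 1 ≤ T ^ (1 - ε) ∧ 0 < T ^ (2 * ε) / (100 * T) ∧
    T ^ (2 * ε) / (100 * T) ≤ 1 / 10 ∧
    (T ^ (1 - ε)) ^ 2 * (T ^ (2 * ε) / (100 * T)) ^ 2 = T ^ (2 * ε) / 10000 ∧
    T ^ (2 * ε) / 100 ≤ u * (T ^ (2 * ε) / (100 * T)) ∧
    u * (T ^ (2 * ε) / (100 * T)) ≤ T ^ (2 * ε) / 50 ∧
    1000 * T ^ (2 * ε) ≤ (T ^ (1 - ε)) ^ 2 ∧
    (T ^ (1 - ε)) ^ 2 * (T ^ (2 * ε - 1)) ^ 2 = T ^ (2 * ε) ∧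
    1 / (T ^ (2 * ε) / (100 * T)) ^ 2 ≤ 10000 * T ^ 2 := by
  have hT0 : 0 < T := by linarith
  have hT1 : 1 ≤ T := by linarith
  obtain ⟨S, hS⟩ : ∃ S : ℝ, S = T ^ (2 * ε) := ⟨_, rfl⟩
  have hS1 : 1 ≤ S := by rw [hS]; exact Real.one_le_rpow hT1 (by linarith)
  have hS2 : S ^ 2 ≤ T := by
    have : S ^ 2 = T ^ (4 * ε) := by
      rw [hS, ← Real.rpow_natCast, ← Real.rpow_mul hT0.le]
      congr 1
      push_cast
      ring
    rw [this]
    calc T ^ (4 * ε) ≤ T ^ (1 : ℝ) := Real.rpow_le_rpow_of_exponent_le hT1 (by linarith)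
      _ = T := Real.rpow_one T
  have hST : S ≤ T := by nlinarith
  have hH2 : (T ^ (1 - ε)) ^ 2 = T ^ 2 / S := by
    rw [hS, ← Real.rpow_natCast, ← Real.rpow_mul hT0.le]
    have : (1 - ε) * ((2 : ℕ) : ℝ) = ((2 : ℕ) : ℝ) - 2 * ε := by push_cast; ring
    rw [this, Real.rpow_sub hT0, Real.rpow_natCast]
  have hv : T ^ (2 * ε - 1) = S / T := by
    rw [hS, Real.rpow_sub hT0, Real.rpow_one]
  have hS0 : 0 < S := by linarith
  rw [hH2, hv, ← hS]
  refine ⟨hS1, Real.one_le_rpow hT1 (by linarith), by positivity, ?_, ?_, ?_, ?_, ?_, ?_, ?_⟩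
  · rw [div_le_iff₀ (by positivity)]
    linarith
  · field_simp
    ring
  · have : S / 100 = T * (S / (100 * T)) := by field_simp
    rw [this]
    gcongr
  · have : S / 50 = (2 * T) * (S / (100 * T)) := by field_simp; ring
    rw [this]
    gcongr
  · rw [le_div_iff₀ hS0]
    nlinarith
  · field_simp
  · rw [div_pow, one_div_div, mul_pow, div_le_iff₀ (by positivity)]
    have : 1 ≤ S ^ 2 := by nlinarith
    nlinarith [sq_nonneg T]

theorem Li_eq (a H u v₀ x ξ : ℝ) : Li a H u v₀ x (-ξ)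
    = ((x ^ (1 - a) : ℝ) : ℂ) * ∫ v in (-v₀)..v₀, FF a H u x ξ v := by
  unfold Li
  congr 1
  refine intervalIntegral.integral_congr fun v _ => ?_
  rw [FF_real]

theorem ft : T_FT := by
  intro ε A hε hε1 hA
  have hCC := CC_nonneg
  obtain ⟨T₀, hT₀, hbeat⟩ := exp_beats ε A (10 ^ 6 * (CC + 1)) hε
  refine ⟨T₀, ?_⟩
  intro T u a x ξ hT hu hu2 ha ha1 hx hx10
  have hT1000 : 1000 ≤ T := hT₀.trans hT
  have hT0 : 0 < T := by linarith
  obtain ⟨f1, f2, f3, f4, f5, f6, f7, f8, f9, f10⟩ := facts ε T u hε hε1 hT1000 hu hu2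
  have hb := hbeat T hT
  have hv₀0 : 0 ≤ T ^ (2 * ε - 1) := by positivity
  obtain ⟨S, hS⟩ : ∃ S : ℝ, T ^ (2 * ε) = S := ⟨_, rfl⟩
  rw [hS] at f1 f3 f4 f5 f6 f7 f8 f9 f10 hb
  obtain ⟨η, hη⟩ : ∃ η : ℝ, S / (100 * T) = η := ⟨_, rfl⟩
  rw [hη] at f3 f4 f5 f6 f7 f10
  obtain ⟨H, hH⟩ : ∃ H : ℝ, T ^ (1 - ε) = H := ⟨_, rfl⟩
  rw [hH] at f2 f5 f8 f9 ⊢
  obtain ⟨v₀, hv₀⟩ : ∃ v₀ : ℝ, T ^ (2 * ε - 1) = v₀ := ⟨_, rfl⟩
  rw [hv₀] at f9 hv₀0 ⊢
  have hu0 : 0 ≤ u := by linarith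
  have hx0 : 0 < x := by linarith
  have hxp : x ^ (1 - a) ≤ T ^ 10 := by
    calc x ^ (1 - a) ≤ x ^ (1 : ℝ) := Real.rpow_le_rpow_of_exponent_le hx (by linarith)
      _ = x := Real.rpow_one x
      _ ≤ T ^ (10 : ℝ) := hx10
      _ = T ^ 10 := by norm_cast
  have hxp0 : 0 ≤ x ^ (1 - a) := by positivity
  have hgh : ‖gh a H u x ξ‖ = x ^ (1 - a) * ‖∫ v : ℝ, FF a H u x ξ v‖ := by
    rw [gh_eq a H u x ξ hx0, norm_mul, Complex.norm_real, Real.norm_eq_abs, abs_of_nonneg hxp0]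
  obtain ⟨E, hE⟩ : ∃ E : ℝ, E = Real.exp (-(S / 2000)) := ⟨_, rfl⟩
  have hE0 : 0 < E := by rw [hE]; exact Real.exp_pos _
  rw [← hE] at hb
  have hT12 : T ^ 12 ≤ T ^ 14 := pow_le_pow_right₀ (by linarith) (by norm_num)
  have hT10 : T ^ 10 ≤ T ^ 14 := pow_le_pow_right₀ (by linarith) (by norm_num)
  have hT2 : 1 ≤ T ^ 2 := one_le_pow₀ (by linarith)
  constructor
  · rintro (h | h | ⟨h, h'⟩)
    · -- (A)
      have hA' := A_bound a H u x ξ η (by linarith) (by linarith) f2 hu0 hx h f3 f4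
      have g1 : Real.exp (H ^ 2 * η ^ 2 / 4 - u * η) ≤ E := by
        rw [hE, f5]
        apply Real.exp_le_exp.mpr
        linarith
      have g2 : 1 + 1 / η ^ 2 ≤ 20000 * T ^ 2 := by linarith
      rw [hgh]
      calc x ^ (1 - a) * ‖∫ v : ℝ, FF a H u x ξ v‖
          ≤ T ^ 10 * (E * ((20000 * T ^ 2) / (1 + ξ ^ 2)) * CC) := by
            gcongr
            refine hA'.trans ?_
            gcongr
        _ = (20000 * CC * T ^ 12 * E) / (1 + ξ ^ 2) := by ring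
        _ ≤ (10 ^ 6 * (CC + 1) * T ^ 14 * E) / (1 + ξ ^ 2) := by
            gcongr
            · norm_num
            · linarith
        _ ≤ _ := by gcongr
    · -- (B)
      have hB' := B_bound a H u x ξ η (by linarith) (by linarith) f2 hu0 hx h f3 f4
      have g1 : Real.exp (H ^ 2 * η ^ 2 / 4) * (Real.exp (-(9 / 100 * u * η))
          + Real.exp (u * η - H ^ 2 / 32)) ≤ 2 * E := by
        rw [mul_add, ← Real.exp_add, ← Real.exp_add, f5, hE, two_mul]
        gcongr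
        · linarith
        · linarith
      have g2 : 1 + 16 / η ^ 2 ≤ 200000 * T ^ 2 := by
        have : 16 / η ^ 2 = 16 * (1 / η ^ 2) := by ring
        rw [this]
        linarith
      rw [hgh]
      calc x ^ (1 - a) * ‖∫ v : ℝ, FF a H u x ξ v‖
          ≤ T ^ 10 * (2 * E * ((200000 * T ^ 2) / (1 + ξ ^ 2)) * CC) := by
            gcongr
            refine hB'.trans ?_
            gcongr
        _ = (400000 * CC * T ^ 12 * E) / (1 + ξ ^ 2) := by ring
        _ ≤ (10 ^ 6 * (CC + 1) * T ^ 14 * E) / (1 + ξ ^ 2) := by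
            gcongr
            · norm_num
            · linarith
        _ ≤ _ := by gcongr
    · -- (C)
      have hC' := C_bound a H u x ξ η (by linarith) (by linarith) f2 hu0 hx h h' f3 f4
      have g1 : Real.exp (H ^ 2 * η ^ 2 / 4 - 44 / 100 * u * η) ≤ E := by
        rw [hE, f5]
        apply Real.exp_le_exp.mpr
        linarith
      have g2 : Real.exp (1 - H ^ 2 / 400 + H ^ 2 * η ^ 2 / 4) ≤ E := by
        rw [hE, f5]
        apply Real.exp_le_exp.mpr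
        linarith
      have g3 : Real.exp (-(H ^ 2 / 800)) ≤ E := by
        rw [hE]
        apply Real.exp_le_exp.mpr
        linarith
      have hξ : ξ ^ 2 ≤ (2 * T) ^ 2 := by
        have h1 : -(2 * T) < ξ := by
          have h2 : u / (4 * Real.pi) ≤ u := by
            apply div_le_self hu0
            have := Real.pi_gt_three
            linarith
          have h3 : ξ * x ≤ ξ := by nlinarith
          linarith
        nlinarith
      have g4 : 1 ≤ 5 * T ^ 2 / (1 + ξ ^ 2) := by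
        rw [le_div_iff₀ (by positivity)]
        nlinarith
      rw [hgh]
      calc x ^ (1 - a) * ‖∫ v : ℝ, FF a H u x ξ v‖
          ≤ T ^ 10 * (E * CC + 2 * E + E * CC) := by
            gcongr
            refine hC'.trans ?_
            gcongr
        _ = (2 * CC + 2) * T ^ 10 * E * 1 := by ring
        _ ≤ (2 * CC + 2) * T ^ 10 * E * (5 * T ^ 2 / (1 + ξ ^ 2)) := by gcongr
        _ = (10 * (CC + 1) * T ^ 12 * E) / (1 + ξ ^ 2) := by ring
        _ ≤ (10 ^ 6 * (CC + 1) * T ^ 14 * E) / (1 + ξ ^ 2) := by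
            gcongr
            norm_num
        _ ≤ _ := by gcongr
  · -- (D)
    intro _ _
    have hD' := D_bound a H u x ξ v₀ (by linarith) (by linarith) f2 hv₀0
    rw [f9] at hD'
    have g1 : Real.exp (-(S / 8)) ≤ E := by
      rw [hE]
      apply Real.exp_le_exp.mpr
      linarith
    rw [gh_eq a H u x ξ hx0, Li_eq, ← mul_sub, norm_mul, Complex.norm_real, Real.norm_eq_abs,
      abs_of_nonneg hxp0]
    calc x ^ (1 - a) * ‖(∫ v : ℝ, FF a H u x ξ v) - ∫ v in (-v₀)..v₀, FF a H u x ξ v‖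
        ≤ T ^ 10 * (E * CC) := by
          gcongr
          refine hD'.trans ?_
          gcongr
      _ = 1 * CC * T ^ 10 * E := by ring
      _ ≤ 10 ^ 6 * (CC + 1) * T ^ 14 * E := by
          gcongr
          · norm_num
          · linarith
      _ ≤ _ := hb

end Pool.Agent.H11.PZ
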