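import Pool.Agent.H11.PZ.PN

/-!
# Gauss-type sums (split off from PO)
helper11
-/

set_option autoImplicit false

open Complex MeasureTheory Set Filter Topology

namespace Pool.Agent.H11.PZ

open Pool.Agent.H28.MZ
open Pool.Agent.H23.GLH (PrimChar)

/-- the sum `∑_b χ(b) e(bν/q)` -/
noncomputable def GI (π : PrimChar) (ν : ℤ) : ℂ :=
  ∑ b ∈ Finset.range π.q, π.χ (b : ZMod π.q) * ei (2 * Real.pi * b * ν / π.q)

theorem norm_GI (π : PrimChar) (ν : ℤ) : ‖GI π ν‖ ≤ π.q := by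
  unfold GI
  refine (norm_sum_le _ _).trans ?_
  have : ∀ b ∈ Finset.range π.q, ‖π.χ (b : ZMod π.q) * ei (2 * Real.pi * b * ν / π.q)‖ ≤ 1 := by
    intro b _
    rw [norm_mul, norm_ei, mul_one]
    exact DirichletCharacter.norm_le_one _ _
  refine (Finset.sum_le_sum this).trans ?_
  simp

theorem GI_neg (π : PrimChar) (μ : ℕ) : GI π (-(μ : ℤ)) = Gs π μ := by
  unfold GI Gs
  refine Finset.sum_congr rfl fun b _ => ?_
  congr 2
  push_cast
  ring

end Pool.Agent.H11.PZ
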