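import Pool.Agent.H11.PZ.PN

/-!
# Module NT of the board for MP_9f0eeb_nt: elementary inequalities
helper11
-/

set_option autoImplicit false

open Complex MeasureTheory Set Filter Topology

namespace Pool.Agent.H11.PZ

open Pool.Agent.H28.MZ
open Pool.Agent.H23.GLH (PrimChar)

theorem sum_rpow_le (p : ℝ) (hp0 : 0 ≤ p) (hp1 : p < 1) (n : ℕ) :
    ∑ μ ∈ Finset.Icc 1 n, (μ : ℝ) ^ (-p) ≤ (n : ℝ) ^ (1 - p) / (1 - p) := by
  have hp : 0 < 1 - p := by linarith
  induction n with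
  | zero =>
    simp only [Finset.Icc_eq_empty (by norm_num : ¬ (1 ≤ 0)), Finset.sum_empty]
    positivity
  | succ n ih =>
    rw [Finset.sum_Icc_succ_top (by omega)]
    have hn1 : (0 : ℝ) < ((n + 1 : ℕ) : ℝ) := by positivity
    have hb := rpow_one_add_le_one_add_mul_self (s := -1 / ((n + 1 : ℕ) : ℝ)) (p := 1 - p)
      (by
        rw [le_div_iff₀ hn1]
        push_cast
        have : (0 : ℝ) ≤ n := Nat.cast_nonneg n
        linarith) (by linarith) (by linarith)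
    have e1 : 1 + -1 / ((n + 1 : ℕ) : ℝ) = (n : ℝ) / ((n + 1 : ℕ) : ℝ) := by
      push_cast
      field_simp
      ring
    rw [e1, Real.div_rpow (Nat.cast_nonneg n) hn1.le, div_le_iff₀ (by positivity)] at hb
    have e2 : ((n + 1 : ℕ) : ℝ) ^ (1 - p) = ((n + 1 : ℕ) : ℝ) * ((n + 1 : ℕ) : ℝ) ^ (-p) := by
      rw [sub_eq_add_neg, Real.rpow_add hn1, Real.rpow_one]
    have e3 : (1 + (1 - p) * (-1 / ((n + 1 : ℕ) : ℝ))) * ((n + 1 : ℕ) : ℝ) ^ (1 - p)
        = ((n + 1 : ℕ) : ℝ) ^ (1 - p) - (1 - p) * ((n + 1 : ℕ) : ℝ) ^ (-p) := by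
      rw [e2]
      field_simp
      ring
    rw [e3] at hb
    have : (n : ℝ) ^ (1 - p) / (1 - p) + ((n + 1 : ℕ) : ℝ) ^ (-p)
        ≤ ((n + 1 : ℕ) : ℝ) ^ (1 - p) / (1 - p) := by
      rw [div_add' _ _ _ hp.ne']
      apply div_le_div_of_nonneg_right _ hp.le
      linarith
    linarith

/-- eventually a constant is below a positive power -/
theorem const_le_rpow (K p : ℝ) (hp : 0 < p) : ∃ T₀ : ℝ, ∀ T : ℝ, T₀ ≤ T → K ≤ T ^ p := by
  have := (tendsto_rpow_atTop hp).eventually_ge_atTop K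
  rw [eventually_atTop] at this
  exact this

theorem log_ge (K : ℝ) : ∃ T₀ : ℝ, ∀ T : ℝ, T₀ ≤ T → K ≤ Real.log T := by
  have := Real.tendsto_log_atTop.eventually_ge_atTop K
  rw [eventually_atTop] at this
  exact this

/-- the bound of KS, simplified -/
theorem KSb_le (T h l μ r R C η : ℝ) (hT : 1 < T) (hh : 1 ≤ h) (hl : 1 ≤ l) (hμ : 1 ≤ μ)
    (hhT : h ≤ T) (hr : 1 < r) (hR : 0 ≤ R) (hC : 0 ≤ C) (hη : η = R / Real.log T) :
    C * (T / μ) ^ (1 / 2 + η) * ((T * h / μ) ^ (1 / r) / l) ^ (-(1 / 2 - r * η)) *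
        (Real.sqrt T + (T * h / μ) ^ (1 / r) / l / Real.sqrt T)
      ≤ C * Real.exp (3 * R) * (T * Real.sqrt l * (T * h) ^ (-(1 / (2 * r)))
            * μ ^ (-(1 / 2 - 1 / (2 * r)))
          + (T * h) ^ (1 / (2 * r)) * μ ^ (-(1 / 2 + 1 / (2 * r)))) := by
  have hT0 : 0 < T := by linarith
  have hlog : 0 < Real.log T := Real.log_pos hT
  have hη0 : 0 ≤ η := by rw [hη]; positivity
  have hμ0 : 0 < μ := by linarith
  have hl0 : 0 < l := by linarith
  have hr0 : 0 < r := by linarith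
  have hTη : T ^ η = Real.exp R := by
    rw [Real.rpow_def_of_pos hT0, hη]
    congr 1
    field_simp
  obtain ⟨Y, hY⟩ : ∃ Y : ℝ, Y = T * h / μ := ⟨_, rfl⟩
  have hY0 : 0 < Y := by rw [hY]; positivity
  rw [← hY]
  obtain ⟨K, hK⟩ : ∃ K : ℝ, K = Y ^ (1 / r) / l := ⟨_, rfl⟩
  have hK0 : 0 < K := by rw [hK]; positivity
  rw [← hK]
  -- first factor
  have a1 : (T / μ) ^ (1 / 2 + η) ≤ (T / μ) ^ (1 / 2 : ℝ) * Real.exp R := by
    rw [Real.rpow_add (by positivity)]
    have : (T / μ) ^ η ≤ T ^ η := by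
      apply Real.rpow_le_rpow (by positivity) _ hη0
      exact div_le_self hT0.le hμ
    rw [hTη] at this
    gcongr
  -- second factor
  have a2 : K ^ (-(1 / 2 - r * η)) ≤ K ^ (-(1 / 2) : ℝ) * Real.exp (2 * R) := by
    have e1 : -(1 / 2 - r * η) = -(1 / 2) + r * η := by ring
    rw [e1, Real.rpow_add hK0]
    have h1 : K ≤ Y ^ (1 / r) := by rw [hK]; exact div_le_self (by positivity) hl
    have h2 : K ^ (r * η) ≤ (Y ^ (1 / r)) ^ (r * η) :=
      Real.rpow_le_rpow hK0.le h1 (by positivity)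
    have h3 : (Y ^ (1 / r)) ^ (r * η) = Y ^ η := by
      rw [← Real.rpow_mul hY0.le]
      congr 1
      field_simp
    have h4 : Y ≤ T * T := by
      rw [hY]
      calc T * h / μ ≤ T * h := div_le_self (by positivity) hμ
        _ ≤ T * T := by gcongr
    have h5 : Y ^ η ≤ (T * T) ^ η := Real.rpow_le_rpow hY0.le h4 hη0
    rw [Real.mul_rpow hT0.le hT0.le, hTη, ← Real.exp_add] at h5
    have e2 : R + R = 2 * R := by ring
    rw [e2] at h5
    rw [h3] at h2
    have := h2.trans h5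
    gcongr
  have hsT : Real.sqrt T = T ^ (1 / 2 : ℝ) := Real.sqrt_eq_rpow T
  have hsT0 : 0 < Real.sqrt T := Real.sqrt_pos.mpr hT0
  calc C * (T / μ) ^ (1 / 2 + η) * K ^ (-(1 / 2 - r * η)) * (Real.sqrt T + K / Real.sqrt T)
      ≤ C * ((T / μ) ^ (1 / 2 : ℝ) * Real.exp R) * (K ^ (-(1 / 2) : ℝ) * Real.exp (2 * R))
          * (Real.sqrt T + K / Real.sqrt T) := by gcongr
    _ = C * (Real.exp R * Real.exp (2 * R)) * ((T / μ) ^ (1 / 2 : ℝ) * K ^ (-(1 / 2) : ℝ)
          * Real.sqrt T + (T / μ) ^ (1 / 2 : ℝ) * (K ^ (-(1 / 2) : ℝ) * K) / Real.sqrt T) := by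
        ring
    _ ≤ _ := by
        rw [← Real.exp_add, show R + 2 * R = 3 * R by ring]
        have hYr : Y ^ (1 / (2 * r)) = (T * h) ^ (1 / (2 * r)) * μ ^ (-(1 / (2 * r))) := by
          rw [hY, Real.div_rpow (by positivity) hμ0.le, Real.rpow_neg hμ0.le]
          rfl
        have hYr' : Y ^ (-(1 / (2 * r))) = (T * h) ^ (-(1 / (2 * r))) * μ ^ (1 / (2 * r)) := by
          rw [hY, Real.div_rpow (by positivity) hμ0.le, Real.rpow_neg hμ0.le]
          rw [div_inv_eq_mul]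
        have hdiv : (T / μ) ^ (1 / 2 : ℝ) = Real.sqrt T * μ ^ (-(1 / 2) : ℝ) := by
          rw [Real.div_rpow hT0.le hμ0.le, hsT, Real.rpow_neg hμ0.le]
          rfl
        have hKm : K ^ (-(1 / 2) : ℝ) = Y ^ (-(1 / (2 * r))) * Real.sqrt l := by
          rw [hK, Real.div_rpow (by positivity) hl0.le, ← Real.rpow_mul hY0.le, Real.rpow_neg hl0.le,
            div_inv_eq_mul, ← Real.sqrt_eq_rpow]
          congr 2
          field_simp
        have hKK : K ^ (-(1 / 2) : ℝ) * K ≤ Y ^ (1 / (2 * r)) := by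
          have e1 : K ^ (-(1 / 2) : ℝ) * K = K ^ (1 / 2 : ℝ) := by
            nth_rewrite 2 [← Real.rpow_one K]
            rw [← Real.rpow_add hK0]
            norm_num
          have e2 : Y ^ (1 / (2 * r)) = (Y ^ (1 / r)) ^ (1 / 2 : ℝ) := by
            rw [← Real.rpow_mul hY0.le]
            congr 1
            field_simp
          rw [e1, e2]
          apply Real.rpow_le_rpow hK0.le _ (by norm_num)
          rw [hK]
          exact div_le_self (by positivity) hl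
        have t1 : (T / μ) ^ (1 / 2 : ℝ) * K ^ (-(1 / 2) : ℝ) * Real.sqrt T
            = T * Real.sqrt l * (T * h) ^ (-(1 / (2 * r))) * μ ^ (-(1 / 2 - 1 / (2 * r))) := by
          have e1 : μ ^ (-(1 / 2 - 1 / (2 * r))) = μ ^ (-(1 / 2) : ℝ) * μ ^ (1 / (2 * r)) := by
            rw [← Real.rpow_add hμ0]
            congr 1
            ring
          rw [hdiv, hKm, hYr', e1]
          have e2 : Real.sqrt T * Real.sqrt T = T := Real.mul_self_sqrt hT0.le
          calc _ = (Real.sqrt T * Real.sqrt T) * Real.sqrt l * (T * h) ^ (-(1 / (2 * r)))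
                * (μ ^ (-(1 / 2) : ℝ) * μ ^ (1 / (2 * r))) := by ring
            _ = _ := by rw [e2]
        have t2 : (T / μ) ^ (1 / 2 : ℝ) * (K ^ (-(1 / 2) : ℝ) * K) / Real.sqrt T
            ≤ (T * h) ^ (1 / (2 * r)) * μ ^ (-(1 / 2 + 1 / (2 * r))) := by
          have e1 : μ ^ (-(1 / 2 + 1 / (2 * r))) = μ ^ (-(1 / 2) : ℝ) * μ ^ (-(1 / (2 * r))) := by
            rw [← Real.rpow_add hμ0]
            congr 1
            ring
          rw [hdiv, e1]
          calc _ = μ ^ (-(1 / 2) : ℝ) * (K ^ (-(1 / 2) : ℝ) * K) := by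
                field_simp
            _ ≤ μ ^ (-(1 / 2) : ℝ) * Y ^ (1 / (2 * r)) := by gcongr
            _ = _ := by rw [hYr]; ring
        rw [t1]
        gcongr

end Pool.Agent.H11.PZ
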