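import Pool.Agent.H11.PZ.NT1

/-!
# Module NT of the board for MP_9f0eeb_nt: the sum over the frequencies
helper11
-/

set_option autoImplicit false

open Complex MeasureTheory Set Filter Topology

namespace Pool.Agent.H11.PZ

open Pool.Agent.H28.MZ
open Pool.Agent.H23.GLH (PrimChar)

theorem sum_floor_le (p X : ℝ) (hp0 : 0 ≤ p) (hp1 : p < 1) (hX : 0 ≤ X) :
    ∑ μ ∈ Finset.Icc 1 ⌊X⌋₊, (μ : ℝ) ^ (-p) ≤ X ^ (1 - p) / (1 - p) := by
  refine (sum_rpow_le p hp0 hp1 _).trans ?_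
  have hp : 0 < 1 - p := by linarith
  have := Nat.floor_le hX
  gcongr

theorem freq_sum (T h l r ε q Z : ℝ) (hT : 1 ≤ T) (hh : 1 ≤ h) (hl : 1 ≤ l)
    (hr : 1 < r) (hε : 0 < ε) (hq : 1 ≤ q) (hZ : Z = T ^ (2 * r / (1 + r) - 4 * ε)) (hZ1 : 1 ≤ Z) :
    ∑ μ ∈ Finset.Icc 1 ⌊q * (T * h) / Z⌋₊, (T * Real.sqrt l * (T * h) ^ (-(1 / (2 * r)))
            * (μ : ℝ) ^ (-(1 / 2 - 1 / (2 * r)))
          + (T * h) ^ (1 / (2 * r)) * (μ : ℝ) ^ (-(1 / 2 + 1 / (2 * r))))
      ≤ 2 * q * Real.sqrt (h * l) * T ^ (1 / 2 + 4 * ε)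
        + 2 * r / (r - 1) * q * Real.sqrt (T * h) := by
  have hT0 : 0 < T := by linarith
  have hh0 : 0 < h := by linarith
  have hl0 : 0 < l := by linarith
  have hq0 : 0 < q := by linarith
  have hZ0 : 0 < Z := by linarith
  have hr0 : 0 < r := by linarith
  have hr1 : 0 < r - 1 := by linarith
  have hTh : 0 < T * h := by positivity
  obtain ⟨X, hX⟩ : ∃ X : ℝ, X = q * (T * h) / Z := ⟨_, rfl⟩
  have hX0 : 0 < X := by rw [hX]; positivity
  rw [← hX]
  have h2r : 1 / (2 * r) < 1 / 2 := by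
    rw [div_lt_div_iff₀ (by positivity) (by norm_num)]
    linarith
  have h2r0 : 0 < 1 / (2 * r) := by positivity
  rw [Finset.sum_add_distrib, ← Finset.mul_sum, ← Finset.mul_sum]
  have s1 := sum_floor_le (1 / 2 - 1 / (2 * r)) X (by linarith) (by linarith) hX0.le
  have s2 := sum_floor_le (1 / 2 + 1 / (2 * r)) X (by linarith) (by linarith) hX0.le
  have e1 : 1 - (1 / 2 - 1 / (2 * r)) = 1 / 2 + 1 / (2 * r) := by ring
  have e2 : 1 - (1 / 2 + 1 / (2 * r)) = 1 / 2 - 1 / (2 * r) := by ring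
  rw [e1] at s1
  rw [e2] at s2
  have hqp : ∀ s : ℝ, 0 ≤ s → s ≤ 1 → q ^ s ≤ q := by
    intro s _ hs1
    calc q ^ s ≤ q ^ (1 : ℝ) := Real.rpow_le_rpow_of_exponent_le hq hs1
      _ = q := Real.rpow_one q
  -- first
  have f1 : T * Real.sqrt l * (T * h) ^ (-(1 / (2 * r))) *
        ∑ μ ∈ Finset.Icc 1 ⌊X⌋₊, (μ : ℝ) ^ (-(1 / 2 - 1 / (2 * r)))
      ≤ 2 * q * Real.sqrt (h * l) * T ^ (1 / 2 + 4 * ε) := by
    obtain ⟨p, hp⟩ : ∃ p : ℝ, p = 1 / 2 + 1 / (2 * r) := ⟨_, rfl⟩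
    rw [← hp] at s1
    have hp0 : 1 / 2 ≤ p := by rw [hp]; linarith
    have hp1 : p ≤ 1 := by rw [hp]; linarith
    have hXp : X ^ p ≤ q * (T * h) ^ p * T ^ (-1 + 4 * ε) := by
      have h1 : X ^ p = q ^ p * (T * h) ^ p * Z ^ (-p) := by
        rw [hX, Real.div_rpow (by positivity) hZ0.le, Real.mul_rpow hq0.le hTh.le,
          Real.rpow_neg hZ0.le]
        rfl
      have h2 : Z ^ (-p) ≤ T ^ (-1 + 4 * ε) := by
        rw [hZ, ← Real.rpow_mul hT0.le]
        apply Real.rpow_le_rpow_of_exponent_le hT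
        have : (2 * r / (1 + r) - 4 * ε) * -p = -1 + 4 * ε * p := by
          rw [hp]
          field_simp
          ring
        rw [this]
        nlinarith
      rw [h1]
      have := hqp p (by linarith) hp1
      gcongr
    have h3 : (T * h) ^ (-(1 / (2 * r))) * (T * h) ^ p = Real.sqrt (T * h) := by
      rw [← Real.rpow_add hTh, hp, Real.sqrt_eq_rpow]
      congr 1
      ring
    calc _ ≤ T * Real.sqrt l * (T * h) ^ (-(1 / (2 * r))) * (X ^ p / p) := by gcongr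
      _ ≤ T * Real.sqrt l * (T * h) ^ (-(1 / (2 * r))) * (X ^ p * 2) := by
          gcongr
          rw [div_le_iff₀ (by linarith)]
          have : 0 < X ^ p := by positivity
          nlinarith
      _ ≤ T * Real.sqrt l * (T * h) ^ (-(1 / (2 * r))) *
            (q * (T * h) ^ p * T ^ (-1 + 4 * ε) * 2) := by gcongr
      _ = 2 * q * (T * Real.sqrt l * ((T * h) ^ (-(1 / (2 * r))) * (T * h) ^ p)
            * T ^ (-1 + 4 * ε)) := by ring
      _ = 2 * q * (Real.sqrt l * Real.sqrt h) * (T * Real.sqrt T * T ^ (-1 + 4 * ε)) := by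
          rw [h3, Real.sqrt_mul hT0.le]
          ring
      _ = _ := by
          have h4 : T * Real.sqrt T * T ^ (-1 + 4 * ε) = T ^ (1 / 2 + 4 * ε) := by
            rw [Real.sqrt_eq_rpow]
            nth_rewrite 1 [← Real.rpow_one T]
            rw [← Real.rpow_add hT0, ← Real.rpow_add hT0]
            congr 1
            ring
          rw [h4, mul_comm h l, Real.sqrt_mul hl0.le]
  -- second
  have f2 : (T * h) ^ (1 / (2 * r)) *
        ∑ μ ∈ Finset.Icc 1 ⌊X⌋₊, (μ : ℝ) ^ (-(1 / 2 + 1 / (2 * r)))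
      ≤ 2 * r / (r - 1) * q * Real.sqrt (T * h) := by
    obtain ⟨s, hs⟩ : ∃ s : ℝ, s = 1 / 2 - 1 / (2 * r) := ⟨_, rfl⟩
    rw [← hs] at s2
    have hs0 : 0 < s := by rw [hs]; linarith
    have hs1 : s ≤ 1 := by rw [hs]; linarith
    have hXs : X ^ s ≤ q * (T * h) ^ s := by
      have h1 : X ≤ q * (T * h) := by
        rw [hX]
        exact div_le_self (by positivity) hZ1
      calc X ^ s ≤ (q * (T * h)) ^ s := Real.rpow_le_rpow hX0.le h1 hs0.le
        _ = q ^ s * (T * h) ^ s := Real.mul_rpow hq0.le hTh.le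
        _ ≤ q * (T * h) ^ s := by
            have := hqp s hs0.le hs1
            gcongr
    have h3 : (T * h) ^ (1 / (2 * r)) * (T * h) ^ s = Real.sqrt (T * h) := by
      rw [← Real.rpow_add hTh, hs, Real.sqrt_eq_rpow]
      congr 1
      ring
    have h4 : 1 / s = 2 * r / (r - 1) := by
      rw [hs]
      field_simp
    calc _ ≤ (T * h) ^ (1 / (2 * r)) * (X ^ s / s) := by gcongr
      _ ≤ (T * h) ^ (1 / (2 * r)) * (q * (T * h) ^ s / s) := by gcongr
      _ = 1 / s * q * ((T * h) ^ (1 / (2 * r)) * (T * h) ^ s) := by ring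
      _ = _ := by rw [h3, h4]
  linarith

end Pool.Agent.H11.PZ
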