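import Pool.Agent.H11.PZ.NT2

/-!
# Module NT of the board for MP_9f0eeb_nt: the local integral at a fixed frequency
helper11
-/

set_option autoImplicit false

open Complex MeasureTheory Set Filter Topology

namespace Pool.Agent.H11.PZ

open Pool.Agent.H28.MZ
open Pool.Agent.H23.GLH (PrimChar)

theorem w_int (a H v₀ : ℝ) (ha : 0 ≤ a) (ha1 : a ≤ 1) (hH : 0 < H) (hv : 0 ≤ v₀)
    (hv1 : v₀ ≤ 1 / 10) :
    ∫ v in (-v₀)..v₀, Real.exp ((1 - a) * v - H ^ 2 * v ^ 2 / 4) ≤ 10 / H := by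
  have hint : Integrable fun v : ℝ => Real.exp (-(H ^ 2 / 4) * v ^ 2) :=
    integrable_exp_neg_mul_sq (by positivity)
  have h1 : ∫ v in (-v₀)..v₀, Real.exp ((1 - a) * v - H ^ 2 * v ^ 2 / 4)
      ≤ ∫ v in (-v₀)..v₀, 2 * Real.exp (-(H ^ 2 / 4) * v ^ 2) := by
    apply intervalIntegral.integral_mono_on (by linarith)
    · apply Continuous.intervalIntegrable
      fun_prop
    · apply Continuous.intervalIntegrable
      fun_prop
    · intro v hv'
      have e1 : (1 - a) * v - H ^ 2 * v ^ 2 / 4 = (1 - a) * v + (-(H ^ 2 / 4) * v ^ 2) := by ring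
      rw [e1, Real.exp_add]
      have h2 : (1 - a) * v ≤ 1 / 2 := by
        have : v ≤ 1 / 10 := hv'.2.trans hv1
        nlinarith
      have h3 : Real.exp ((1 - a) * v) ≤ 2 := by
        have h4 : Real.exp ((1 - a) * v) ≤ Real.exp (1 / 2) := Real.exp_le_exp.mpr h2
        have h5 := Real.exp_bound_div_one_sub_of_interval (x := 1 / 2) (by norm_num) (by norm_num)
        refine h4.trans (h5.trans (by norm_num))
      gcongr
  have h2 : ∫ v in (-v₀)..v₀, 2 * Real.exp (-(H ^ 2 / 4) * v ^ 2)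
      ≤ 2 * ∫ v : ℝ, Real.exp (-(H ^ 2 / 4) * v ^ 2) := by
    rw [intervalIntegral.integral_const_mul, intervalIntegral.integral_of_le (by linarith)]
    have := setIntegral_le_integral (s := Ioc (-v₀) v₀) hint
      (Eventually.of_forall fun v => (Real.exp_pos _).le)
    linarith
  rw [integral_gaussian] at h2
  have h3 : Real.sqrt (Real.pi / (H ^ 2 / 4)) ≤ 4 / H := by
    rw [Real.sqrt_le_left (by positivity)]
    have := Real.pi_lt_four
    rw [div_pow, div_le_div_iff₀ (by positivity) (by positivity)]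
    nlinarith [sq_nonneg H, mul_pos hH hH]
  calc _ ≤ _ := h1
    _ ≤ _ := h2
    _ ≤ 2 * (4 / H) := by gcongr
    _ = 8 / H := by ring
    _ ≤ 10 / H := by gcongr; norm_num

theorem mu_bound (a H u v₀ ξ τ lg Kb : ℝ) (S : Finset ℕ) (c : ℕ → ℂ) (x : ℕ → ℝ) (ha : 0 ≤ a)
    (ha1 : a ≤ 1) (hH : 0 < H) (hv : 0 ≤ v₀) (hv1 : v₀ ≤ 1 / 10) (hKb : 0 ≤ Kb)
    (h : ∀ v : ℝ, |v| ≤ 1 / 10 → ‖∑ k ∈ S, c k * ((x k ^ (1 - a) : ℝ) : ℂ) *
      ei (τ * Real.log k + 2 * Real.pi * ξ * x k * Real.exp v)‖ ≤ Kb) :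
    ‖∑ k ∈ S, c k * ei (τ * (Real.log k + lg)) * Li a H u v₀ (x k) ξ‖ ≤ Kb * (10 / H) := by
  have e1 : ∑ k ∈ S, c k * ei (τ * (Real.log k + lg)) * Li a H u v₀ (x k) ξ
      = ∫ v in (-v₀)..v₀, ((Real.exp ((1 - a) * v - H ^ 2 * v ^ 2 / 4) : ℝ) : ℂ)
          * ei (τ * lg - u * v) * ∑ k ∈ S, c k * ((x k ^ (1 - a) : ℝ) : ℂ) *
            ei (τ * Real.log k + 2 * Real.pi * ξ * x k * Real.exp v) := by
    have e2 : ∀ v : ℝ, ((Real.exp ((1 - a) * v - H ^ 2 * v ^ 2 / 4) : ℝ) : ℂ)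
          * ei (τ * lg - u * v) * ∑ k ∈ S, c k * ((x k ^ (1 - a) : ℝ) : ℂ) *
            ei (τ * Real.log k + 2 * Real.pi * ξ * x k * Real.exp v)
        = ∑ k ∈ S, (c k * ei (τ * (Real.log k + lg)) * ((x k ^ (1 - a) : ℝ) : ℂ)) *
          (((Real.exp ((1 - a) * v - H ^ 2 * v ^ 2 / 4) : ℝ) : ℂ) *
            ei (2 * Real.pi * ξ * x k * Real.exp v - u * v)) := by
      intro v
      rw [Finset.mul_sum]
      refine Finset.sum_congr rfl fun k _ => ?_
      have e3 : ei (τ * lg - u * v) * ei (τ * Real.log k + 2 * Real.pi * ξ * x k * Real.exp v)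
          = ei (τ * (Real.log k + lg)) * ei (2 * Real.pi * ξ * x k * Real.exp v - u * v) := by
        rw [← ei_add, ← ei_add]
        congr 1
        ring
      linear_combination (((Real.exp ((1 - a) * v - H ^ 2 * v ^ 2 / 4) : ℝ) : ℂ) * c k *
        ((x k ^ (1 - a) : ℝ) : ℂ)) * e3
    rw [intervalIntegral.integral_congr (fun v _ => e2 v), intervalIntegral.integral_finsetSum]
    · refine Finset.sum_congr rfl fun k _ => ?_
      rw [intervalIntegral.integral_const_mul]
      unfold Li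
      ring
    · intro k _
      apply Continuous.intervalIntegrable
      have hc : Continuous fun v : ℝ => ei (2 * Real.pi * ξ * x k * Real.exp v - u * v) := by
        apply continuous_ei.comp
        fun_prop
      fun_prop
  rw [e1]
  have hbound : ∀ v ∈ Icc (-v₀) v₀, ‖((Real.exp ((1 - a) * v - H ^ 2 * v ^ 2 / 4) : ℝ) : ℂ)
          * ei (τ * lg - u * v) * ∑ k ∈ S, c k * ((x k ^ (1 - a) : ℝ) : ℂ) *
            ei (τ * Real.log k + 2 * Real.pi * ξ * x k * Real.exp v)‖
        ≤ Real.exp ((1 - a) * v - H ^ 2 * v ^ 2 / 4) * Kb := by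
    intro v hv'
    rw [norm_mul, norm_mul, norm_ei, mul_one, Complex.norm_real, Real.norm_eq_abs,
      abs_of_pos (Real.exp_pos _)]
    have := h v (by rw [abs_le]; constructor <;> linarith [hv'.1, hv'.2])
    gcongr
  refine (intervalIntegral.norm_integral_le_integral_norm (by linarith)).trans ?_
  have hcs : Continuous fun v : ℝ => ((Real.exp ((1 - a) * v - H ^ 2 * v ^ 2 / 4) : ℝ) : ℂ)
          * ei (τ * lg - u * v) * ∑ k ∈ S, c k * ((x k ^ (1 - a) : ℝ) : ℂ) *
            ei (τ * Real.log k + 2 * Real.pi * ξ * x k * Real.exp v) := by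
    have c1 : Continuous fun v : ℝ => ei (τ * lg - u * v) := by
      apply continuous_ei.comp
      fun_prop
    have c2 : Continuous fun v : ℝ => ∑ k ∈ S, c k * ((x k ^ (1 - a) : ℝ) : ℂ) *
            ei (τ * Real.log k + 2 * Real.pi * ξ * x k * Real.exp v) := by
      apply continuous_finsetSum
      intro k _
      have : Continuous fun v : ℝ => ei (τ * Real.log k + 2 * Real.pi * ξ * x k * Real.exp v) := by
        apply continuous_ei.comp
        fun_prop
      fun_prop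
    fun_prop
  have hw2 : Continuous fun v : ℝ => Real.exp ((1 - a) * v - H ^ 2 * v ^ 2 / 4) * Kb := by
    fun_prop
  have h2 := intervalIntegral.integral_mono_on (μ := volume) (by linarith : -v₀ ≤ v₀)
    (hcs.norm.intervalIntegrable _ _) (hw2.intervalIntegrable _ _) hbound
  refine h2.trans ?_
  rw [intervalIntegral.integral_mul_const, mul_comm]
  have := w_int a H v₀ ha ha1 hH hv hv1
  gcongr

/-- trivial bound for `Sg` -/
theorem norm_Sg_le (π : PrimChar) (a H u x : ℝ) (hx : 0 < x) (hH : 1 ≤ H) (ha : 0 ≤ a) :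
    ‖Sg π a H u x‖ ≤ (Real.exp 4 * ∑' m : ℕ, (m : ℝ) ^ (-2 : ℝ)) * x ^ 2 := by
  have hs : Summable fun m : ℕ => (m : ℝ) ^ (-2 : ℝ) := by
    rw [Real.summable_nat_rpow]
    norm_num
  have h1 := (hs.mul_left (Real.exp 4 * x ^ 2)).hasSum
  rw [tsum_mul_left] at h1
  have h2 := tsum_of_norm_bounded (f := fun m : ℕ => co π m * gf a H u x m) h1 (by
    intro m
    rcases Nat.eq_zero_or_pos m with h0 | h0
    · subst h0
      unfold co
      simp only [if_true, zero_mul, norm_zero]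
      positivity
    · have hm' : (1 : ℝ) ≤ m := by exact_mod_cast h0
      have h1 := norm_gf_big a H u x m hx hH ha hm'
      have h2 : ‖co π m‖ ≤ 1 := by
        unfold co
        split_ifs
        · simp
        · exact DirichletCharacter.norm_le_one _ _
      rw [norm_mul]
      calc ‖co π m‖ * ‖gf a H u x m‖ ≤ 1 * (Real.exp 4 * x ^ 2 * (m : ℝ) ^ (-2 : ℝ)) := by gcongr
        _ = _ := one_mul _)
  unfold Sg
  refine h2.trans (le_of_eq ?_)
  ring

end Pool.Agent.H11.PZ
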