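import Pool.Agent.H11.PZ.NT3
import Pool.Agent.H11.PZ.GI

/-!
# Module NT of the board for MP_9f0eeb_nt: the main part and the result
helper11
-/

set_option autoImplicit false

open Complex MeasureTheory Set Filter Topology

namespace Pool.Agent.H11.PZ

open Pool.Agent.H28.MZ
open Pool.Agent.H23.GLH (PrimChar)

theorem norm_co_le (π : PrimChar) (k : ℕ) : ‖co π k‖ ≤ 1 := by
  unfold co
  split_ifs
  · simp
  · exact DirichletCharacter.norm_le_one _ _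

/-- the main part -/
theorem main_bound (χ ψ : PrimChar) (r C T u τ η H M Z v₀ : ℝ) (h l N : ℕ)
    (hC : 0 ≤ C) (hη : 0 ≤ η) (hη1 : η ≤ 1 / 16)
    (hT : 1 < T) (hu2 : u ≤ 2 * T) (hH : 0 < H)
    (hZ : 0 < Z) (hh : 1 ≤ h) (hl : 1 ≤ l) (hv : 0 ≤ v₀) (hv1 : v₀ ≤ 1 / 10)
    (hks : ∀ (v : ℝ) (μ : ℕ), 1 ≤ μ → |v| ≤ 1 / 10 → ∀ S : Finset ℕ,
      (∀ k, k ∈ S ↔ k ∈ Finset.range (N + 1) ∧ Z < ((k : ℝ) * l) ^ r ∧
        u / (4 * Real.pi) ≤ μ * (((k : ℝ) * l) ^ r / h) / χ.q ∧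
          μ * (((k : ℝ) * l) ^ r / h) / χ.q ≤ u / Real.pi) →
      ‖∑ k ∈ S, (starRingEnd ℂ) (co ψ k) * (((k : ℝ) ^ (-(1 / 2 - r * η)) * V (k / M) : ℝ) : ℂ) *
        (((((k : ℝ) * l) ^ r / h) ^ (1 - (1 / 2 - η)) : ℝ) : ℂ) *
          ei (τ * Real.log k + 2 * Real.pi * (μ / χ.q) * (((k : ℝ) * l) ^ r / h) * Real.exp v)‖ ≤
        C * (T / μ) ^ (1 / 2 + η) * ((T * h / μ) ^ (1 / r) / l) ^ (-(1 / 2 - r * η)) *
          (Real.sqrt T + (T * h / μ) ^ (1 / r) / l / Real.sqrt T))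
    (A : Finset ℕ) (hA : ∀ k, k ∈ A ↔ k ∈ Finset.range (N + 1) ∧ Z < ((k : ℝ) * l) ^ r) :
    ‖∑ k ∈ A, (starRingEnd ℂ) (co ψ k) * (((k : ℝ) ^ (-(1 / 2 - r * η)) * V (k / M) : ℝ) : ℂ) *
        ei (τ * (Real.log k + Real.log l)) * Mn χ (1 / 2 - η) H u v₀ (((k : ℝ) * l) ^ r / h)‖
      ≤ 10 / H * ∑ μ ∈ Finset.Icc 1 ⌊χ.q * (T * h) / Z⌋₊,
        C * (T / μ) ^ (1 / 2 + η) * ((T * h / μ) ^ (1 / r) / l) ^ (-(1 / 2 - r * η)) *
          (Real.sqrt T + (T * h / μ) ^ (1 / r) / l / Real.sqrt T) := by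
  classical
  have := χ.q_ne
  have hq : 0 < χ.q := Nat.pos_of_ne_zero χ.q_ne.out
  have hq' : (0 : ℝ) < χ.q := by exact_mod_cast hq
  have hqc : (χ.q : ℂ) ≠ 0 := by exact_mod_cast hq.ne'
  have hT0 : 0 < T := by linarith
  have hh0 : (0 : ℝ) < h := by exact_mod_cast hh
  have hl0 : (0 : ℝ) < l := by exact_mod_cast hl
  have hpi := Real.pi_pos
  have hpi3 := Real.pi_gt_three
  -- abbreviations
  obtain ⟨Kb, hKb⟩ : ∃ Kb : ℕ → ℝ, Kb = fun μ : ℕ =>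
      C * (T / μ) ^ (1 / 2 + η) * ((T * h / μ) ^ (1 / r) / l) ^ (-(1 / 2 - r * η)) *
          (Real.sqrt T + (T * h / μ) ^ (1 / r) / l / Real.sqrt T) := ⟨_, rfl⟩
  have hKb0 : ∀ μ, 0 ≤ Kb μ := by
    intro μ
    rw [hKb]
    have : (0 : ℝ) ≤ μ := Nat.cast_nonneg μ
    positivity
  obtain ⟨x, hx⟩ : ∃ x : ℕ → ℝ, x = fun k : ℕ => ((k : ℝ) * l) ^ r / h := ⟨_, rfl⟩
  have hxk : ∀ k : ℕ, ((k : ℝ) * l) ^ r / h = x k := fun k => by rw [hx]
  obtain ⟨cf, hcf⟩ : ∃ cf : ℕ → ℂ, cf = fun k : ℕ => (starRingEnd ℂ) (co ψ k) *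
      (((k : ℝ) ^ (-(1 / 2 - r * η)) * V (k / M) : ℝ) : ℂ) := ⟨_, rfl⟩
  have hcfk : ∀ k : ℕ, (starRingEnd ℂ) (co ψ k) *
      (((k : ℝ) ^ (-(1 / 2 - r * η)) * V (k / M) : ℝ) : ℂ) = cf k := fun k => by rw [hcf]
  have hKbk : ∀ μ : ℕ, C * (T / μ) ^ (1 / 2 + η) * ((T * h / μ) ^ (1 / r) / l) ^ (-(1 / 2 - r * η)) *
          (Real.sqrt T + (T * h / μ) ^ (1 / r) / l / Real.sqrt T) = Kb μ := fun μ => by rw [hKb]
  simp only [hxk, hcfk, hKbk] at hks ⊢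
  -- the sets
  let D : ℕ → Finset ℕ := fun μ => (Finset.range (N + 1)).filter fun k =>
    Z < ((k : ℝ) * l) ^ r ∧ u / (4 * Real.pi) ≤ μ * x k / χ.q ∧ μ * x k / χ.q ≤ u / Real.pi
  have hD : ∀ μ k : ℕ, k ∈ D μ ↔ k ∈ Finset.range (N + 1) ∧ Z < ((k : ℝ) * l) ^ r ∧
        u / (4 * Real.pi) ≤ μ * x k / χ.q ∧ μ * x k / χ.q ≤ u / Real.pi := by
    intro μ k
    exact Finset.mem_filter
  have hFr : ∀ (k μ : ℕ), μ ∈ Fr χ.q u (x k) ↔ μ ∈ Finset.Icc 1 ⌊χ.q * u⌋₊ ∧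
      (u / (4 * Real.pi) ≤ μ * x k / χ.q ∧ μ * x k / χ.q ≤ u / Real.pi) := by
    intro k μ
    unfold Fr
    exact Finset.mem_filter
  -- swap
  have hswap : ∑ k ∈ A, cf k * ei (τ * (Real.log k + Real.log l)) *
        Mn χ (1 / 2 - η) H u v₀ (x k)
      = ∑ μ ∈ Finset.Icc 1 ⌊χ.q * u⌋₊, (1 / (χ.q : ℂ)) * Gs χ μ *
        ∑ k ∈ D μ, cf k * ei (τ * (Real.log k + Real.log l)) *
          Li (1 / 2 - η) H u v₀ (x k) (μ / χ.q) := by
    have e1 : ∀ k ∈ A, cf k * ei (τ * (Real.log k + Real.log l)) *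
        Mn χ (1 / 2 - η) H u v₀ (x k) = ∑ μ ∈ Fr χ.q u (x k), (1 / (χ.q : ℂ)) * Gs χ μ *
          (cf k * ei (τ * (Real.log k + Real.log l)) *
            Li (1 / 2 - η) H u v₀ (x k) (μ / χ.q)) := by
      intro k _
      unfold Mn
      rw [Finset.mul_sum, Finset.mul_sum]
      exact Finset.sum_congr rfl fun μ _ => by ring
    rw [Finset.sum_congr rfl e1]
    rw [Finset.sum_comm' (s' := D) (t' := Finset.Icc 1 ⌊χ.q * u⌋₊)]
    · exact Finset.sum_congr rfl fun μ _ => by rw [Finset.mul_sum]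
    · intro k μ
      rw [hA, hFr, hD]
      tauto
  rw [hswap]
  -- each frequency
  have hin : ∀ μ ∈ Finset.Icc 1 ⌊χ.q * u⌋₊, ‖(1 / (χ.q : ℂ)) * Gs χ μ *
        ∑ k ∈ D μ, cf k * ei (τ * (Real.log k + Real.log l)) *
          Li (1 / 2 - η) H u v₀ (x k) (μ / χ.q)‖
      ≤ if μ ≤ ⌊χ.q * (T * h) / Z⌋₊ then 10 / H * Kb μ else 0 := by
    intro μ hμ
    have hμ1 : 1 ≤ μ := (Finset.mem_Icc.mp hμ).1
    have hμ0 : (0 : ℝ) < μ := by exact_mod_cast hμ1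
    by_cases hμX : μ ≤ ⌊χ.q * (T * h) / Z⌋₊
    · rw [if_pos hμX]
      have h1 := mu_bound (1 / 2 - η) H u v₀ (μ / χ.q) τ (Real.log l) (Kb μ) (D μ) cf x
        (by linarith) (by linarith) hH hv hv1 (hKb0 μ)
        (fun v hv' => hks v μ hμ1 hv' (D μ) (hD μ))
      have h2 : ‖(1 / (χ.q : ℂ)) * Gs χ μ‖ ≤ 1 := by
        rw [norm_mul, norm_div, norm_one, Complex.norm_natCast, ← GI_neg]
        have := norm_GI χ (-(μ : ℤ))
        rw [one_div, inv_mul_le_iff₀ hq', mul_one]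
        exact this
      rw [norm_mul]
      calc _ ≤ 1 * (Kb μ * (10 / H)) := by gcongr
        _ = _ := by ring
    · rw [if_neg hμX]
      have hemp : D μ = ∅ := by
        rw [Finset.eq_empty_iff_forall_notMem]
        intro k hk
        obtain ⟨_, hP, _, hQ⟩ := (hD μ k).mp hk
        apply hμX
        apply Nat.le_floor
        rw [le_div_iff₀ hZ]
        have h1 : Z / h < x k := by
          rw [hx]
          dsimp only
          gcongr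
        have h2 : (μ : ℝ) * x k ≤ u / Real.pi * χ.q := by
          rw [div_le_iff₀ hq'] at hQ
          exact hQ
        have h3 : u / Real.pi ≤ T := by
          rw [div_le_iff₀ hpi]
          nlinarith
        have h4 : (μ : ℝ) * (Z / h) ≤ T * χ.q := by
          calc (μ : ℝ) * (Z / h) ≤ μ * x k := by gcongr
            _ ≤ _ := h2
            _ ≤ _ := by gcongr
        calc (μ : ℝ) * Z = μ * (Z / h) * h := by field_simp
          _ ≤ T * χ.q * h := by gcongr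
          _ = _ := by ring
      rw [hemp, Finset.sum_empty, mul_zero, norm_zero]
  refine (norm_sum_le _ _).trans ((Finset.sum_le_sum hin).trans ?_)
  rw [← Finset.sum_filter, Finset.mul_sum]
  apply Finset.sum_le_sum_of_subset_of_nonneg
  · intro μ hμ
    rw [Finset.mem_filter, Finset.mem_Icc] at hμ
    rw [Finset.mem_Icc]
    exact ⟨hμ.1.1, hμ.2⟩
  · intro μ _ _
    have := hKb0 μ
    positivity

end Pool.Agent.H11.PZ
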