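import Pool.Agent.H11.PZ.NT4

/-!
# Module NT of the board for MP_9f0eeb_nt: the result
helper11
-/

set_option autoImplicit false

open Complex MeasureTheory Set Filter Topology

namespace Pool.Agent.H11.PZ

open Pool.Agent.H28.MZ
open Pool.Agent.H23.GLH (PrimChar)

/-- the coefficient -/
theorem coef_le (ψ : PrimChar) (p M : ℝ) (k : ℕ) (hk : 1 ≤ k) (hp : 0 ≤ p) (hM : 0 < M)
    (hV : ∀ x : ℝ, 0 < x → 0 ≤ V x ∧ V x ≤ 1) :
    ‖(starRingEnd ℂ) (co ψ k) * (((k : ℝ) ^ (-p) * V (k / M) : ℝ) : ℂ)‖ ≤ V (k / M) ∧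
    ‖(starRingEnd ℂ) (co ψ k) * (((k : ℝ) ^ (-p) * V (k / M) : ℝ) : ℂ)‖ ≤ 1 := by
  have hk1 : (1 : ℝ) ≤ k := by exact_mod_cast hk
  have hk0 : (0 : ℝ) < k := by linarith
  obtain ⟨h1, h2⟩ := hV (k / M) (by positivity)
  have h3 : (k : ℝ) ^ (-p) ≤ 1 := Real.rpow_le_one_of_one_le_of_nonpos hk1 (by linarith)
  have h4 : 0 ≤ (k : ℝ) ^ (-p) := by positivity
  have h5 := norm_co_le ψ k
  have h6 : ‖(starRingEnd ℂ) (co ψ k) * (((k : ℝ) ^ (-p) * V (k / M) : ℝ) : ℂ)‖ ≤ V (k / M) := by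
    rw [norm_mul, Complex.norm_conj, Complex.norm_real, Real.norm_eq_abs,
      abs_of_nonneg (by positivity)]
    calc ‖co ψ k‖ * ((k : ℝ) ^ (-p) * V (k / M)) ≤ 1 * (1 * V (k / M)) := by gcongr
      _ = _ := by ring
  exact ⟨h6, h6.trans h2⟩

/-- the trivial bound for a term -/
theorem term_le (χ ψ : PrimChar) (r p a H M u θ CV : ℝ) (h l k : ℕ)
    (hr2 : r ≤ 3 / 2) (hp : 0 ≤ p) (ha : 0 ≤ a) (hH : 1 ≤ H) (hM : 0 < M) (hh : 1 ≤ h) (hl : 1 ≤ l)
    (hCV : 0 ≤ CV) (hV : ∀ x : ℝ, 0 < x → 0 ≤ V x ∧ V x ≤ 1)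
    (hV2 : ∀ x : ℝ, 0 < x → V x ≤ CV * x ^ (-(10 : ℝ))) :
    ‖(starRingEnd ℂ) (co ψ k) * (((k : ℝ) ^ (-p) * V (k / M) : ℝ) : ℂ) * ei θ *
        Sg χ a H u (((k : ℝ) * l) ^ r / h)‖
      ≤ CV * (Real.exp 4 * ∑' m : ℕ, (m : ℝ) ^ (-2 : ℝ)) * M ^ 10 * (l : ℝ) ^ 3
        * (1 / (k : ℝ) ^ 7) := by
  rcases Nat.eq_zero_or_pos k with h0 | h0
  · subst h0
    unfold co
    simp
  · have hk1 : (1 : ℝ) ≤ k := by exact_mod_cast h0
    have hk0 : (0 : ℝ) < k := by linarith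
    have hl1 : (1 : ℝ) ≤ l := by exact_mod_cast hl
    have hh1 : (1 : ℝ) ≤ h := by exact_mod_cast hh
    have hl0 : (0 : ℝ) < l := by linarith
    have hh0 : (0 : ℝ) < h := by linarith
    have hx : 0 < ((k : ℝ) * l) ^ r / h := by positivity
    have h1 := norm_Sg_le χ a H u _ hx hH ha
    have h2 := (coef_le ψ p M k h0 hp hM hV).1
    have h3 := hV2 (k / M) (by positivity)
    have h4 : ((k : ℝ) / M) ^ (-(10 : ℝ)) = M ^ 10 / (k : ℝ) ^ 10 := by
      rw [Real.rpow_neg (by positivity)]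
      have : ((k : ℝ) / M) ^ (10 : ℝ) = ((k : ℝ) / M) ^ 10 := by norm_cast
      rw [this, div_pow, inv_div]
    rw [h4] at h3
    have hkl : 1 ≤ (k : ℝ) * l := by nlinarith
    have h5 : (((k : ℝ) * l) ^ r / h) ^ 2 ≤ ((k : ℝ) * l) ^ 3 := by
      have e1 : ((k : ℝ) * l) ^ r / h ≤ ((k : ℝ) * l) ^ r := div_le_self (by positivity) hh1
      calc (((k : ℝ) * l) ^ r / h) ^ 2 ≤ (((k : ℝ) * l) ^ r) ^ 2 := by gcongr
        _ = ((k : ℝ) * l) ^ (r * 2) := by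
            rw [← Real.rpow_natCast, ← Real.rpow_mul (by positivity)]
            norm_num
        _ ≤ ((k : ℝ) * l) ^ (3 : ℝ) := Real.rpow_le_rpow_of_exponent_le hkl (by linarith)
        _ = _ := by norm_cast
    have hS0 : 0 ≤ Real.exp 4 * ∑' m : ℕ, (m : ℝ) ^ (-2 : ℝ) := by
      have : 0 ≤ ∑' m : ℕ, (m : ℝ) ^ (-2 : ℝ) := tsum_nonneg fun m => by positivity
      positivity
    rw [norm_mul, norm_mul _ (ei θ), norm_ei, mul_one]
    calc _ ≤ (CV * (M ^ 10 / (k : ℝ) ^ 10)) * ((Real.exp 4 * ∑' m : ℕ, (m : ℝ) ^ (-2 : ℝ))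
          * ((k : ℝ) * l) ^ 3) := by
            gcongr
            · exact h2.trans h3
            · exact h1.trans (by gcongr)
      _ = _ := by
        field_simp

theorem nt (hpo : T_PO) (hks : T_KS) (hvv : T_VV) : T_NT := by
  classical
  intro χ ψ r hr hr2
  have := χ.q_ne
  have hq : 1 ≤ χ.q := Nat.pos_of_ne_zero χ.q_ne.out
  have hq1 : (1 : ℝ) ≤ χ.q := by exact_mod_cast hq
  have hq0 : (0 : ℝ) < χ.q := by linarith
  obtain ⟨c₀, C, hc₀, hC, hks'⟩ := hks χ.q ψ r hq hr hr2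
  refine ⟨c₀, hc₀, ?_⟩
  intro δ hδ hδ1
  have hV := hvv.1
  obtain ⟨CV, hCV, hV2⟩ := hvv.2.2.2.1 10 (by norm_num)
  refine ⟨min (1 / 100) (δ / 20), lt_min (by norm_num) (by positivity), ?_⟩
  intro ε R hε hε1 hR
  have hε2 : ε ≤ 1 / 100 := hε1.trans (min_le_left _ _)
  have hε3 : ε ≤ δ / 20 := hε1.trans (min_le_right _ _)
  obtain ⟨T₁, hT₁⟩ := hpo χ ε 10 hε (by linarith) (by norm_num)
  obtain ⟨T₂, hT₂⟩ := log_ge (16 * R)
  have hr1 : 0 < r - 1 := by linarith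
  have hr0 : 0 < r := by linarith
  obtain ⟨CS, hCS⟩ : ∃ CS : ℝ, Real.exp 4 * ∑' m : ℕ, (m : ℝ) ^ (-2 : ℝ) = CS := ⟨_, rfl⟩
  have hCS0 : 0 ≤ CS := by
    rw [← hCS]
    have : 0 ≤ ∑' m : ℕ, (m : ℝ) ^ (-2 : ℝ) := tsum_nonneg fun m => by positivity
    positivity
  have hs2 : Summable fun k : ℕ => 1 / (k : ℝ) ^ 2 :=
    Real.summable_one_div_nat_pow.mpr (by norm_num)
  obtain ⟨z2, hz2⟩ : ∃ z2 : ℝ, ∑' k : ℕ, 1 / (k : ℝ) ^ 2 = z2 := ⟨_, rfl⟩
  have hz20 : 0 ≤ z2 := by rw [← hz2]; exact tsum_nonneg fun k => by positivity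
  obtain ⟨K₁, hK₁⟩ : ∃ K₁ : ℝ, K₁ = 10 * C * Real.exp (3 * R) * χ.q * (2 + 2 * r / (r - 1)) :=
    ⟨_, rfl⟩
  obtain ⟨T₃, hT₃⟩ := const_le_rpow (K₁ + 2 + CV * CS * z2) (δ / 2) (by linarith)
  refine ⟨max (max 1000 χ.q) (max T₁ (max T₂ T₃)), ?_⟩
  intro T u τ h l hT hu hu2 hτ hh hl hhT hlT
  have hT1000 : 1000 ≤ T := (le_max_left _ _).trans ((le_max_left _ _).trans hT)
  have hTq : (χ.q : ℝ) ≤ T := (le_max_right _ _).trans ((le_max_left _ _).trans hT)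
  have hTT₁ : T₁ ≤ T := (le_max_left _ _).trans ((le_max_right _ _).trans hT)
  have hTT₂ : T₂ ≤ T :=
    (le_max_left _ _).trans ((le_max_right _ _).trans ((le_max_right _ _).trans hT))
  have hTT₃ : T₃ ≤ T :=
    (le_max_right _ _).trans ((le_max_right _ _).trans ((le_max_right _ _).trans hT))
  have hT0 : 0 < T := by linarith
  have hT1 : 1 ≤ T := by linarith
  have hTl1 : 1 < T := by linarith
  have hlog := hT₂ T hTT₂
  have hlog0 : 0 < Real.log T := by linarith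
  have hh1 : (1 : ℝ) ≤ h := by exact_mod_cast hh
  have hl1 : (1 : ℝ) ≤ l := by exact_mod_cast hl
  have hh0 : (0 : ℝ) < h := by linarith
  have hl0 : (0 : ℝ) < l := by linarith
  have hsT : Real.sqrt T ≤ T := by
    rw [Real.sqrt_le_left (by linarith)]
    calc T = T ^ 1 := (pow_one T).symm
      _ ≤ T ^ 2 := pow_le_pow_right₀ hT1 (by norm_num)
  have hpi := Real.pi_pos
  have hpi3 := Real.pi_gt_three
  -- the parameters
  have hη0' : 0 ≤ R / Real.log T := by positivity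
  have hη1' : R / Real.log T ≤ 1 / 16 := by
    rw [div_le_iff₀ hlog0]
    linarith
  obtain ⟨η, hη⟩ : ∃ η : ℝ, η = R / Real.log T := ⟨_, rfl⟩
  rw [← hη] at hη0' hη1' ⊢
  have hrη : 0 ≤ 1 / 2 - r * η := by
    have : r * η ≤ 3 / 2 * (1 / 16) := mul_le_mul hr2.le hη1' hη0' (by norm_num)
    linarith
  have hH1 : 1 ≤ T ^ (1 - ε) := Real.one_le_rpow hT1 (by linarith)
  have hHinv : 1 / T ^ (1 - ε) = T ^ (-1 + ε) := by
    rw [one_div, ← Real.rpow_neg hT0.le]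
    congr 1
    ring
  have hM0 : 0 < T ^ (1 + ε) := by positivity
  have hM10 : (T ^ (1 + ε)) ^ 10 ≤ T ^ 11 := by
    rw [← Real.rpow_natCast, ← Real.rpow_mul hT0.le, ← Real.rpow_natCast]
    apply Real.rpow_le_rpow_of_exponent_le hT1
    push_cast
    linarith
  have hexp1 : 1 ≤ 2 * r / (1 + r) := by
    rw [le_div_iff₀ (by linarith)]
    linarith
  have hZs : Real.sqrt T ≤ T ^ (2 * r / (1 + r) - 4 * ε) := by
    rw [Real.sqrt_eq_rpow]
    apply Real.rpow_le_rpow_of_exponent_le hT1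
    linarith
  have hv₀0 : 0 ≤ T ^ (2 * ε - 1) := by positivity
  have hv₀1 : T ^ (2 * ε - 1) ≤ 1 / 10 := by
    have h1 : T ^ (2 * ε - 1) ≤ T ^ (-(1 / 2) : ℝ) :=
      Real.rpow_le_rpow_of_exponent_le hT1 (by linarith)
    have h2 : T ^ (-(1 / 2) : ℝ) = (Real.sqrt T)⁻¹ := by
      rw [Real.rpow_neg hT0.le, Real.sqrt_eq_rpow]
    have h3 : 10 ≤ Real.sqrt T := by
      apply Real.le_sqrt_of_sq_le
      linarith
    rw [h2] at h1
    refine h1.trans ?_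
    rw [inv_eq_one_div]
    exact one_div_le_one_div_of_le (by norm_num) h3
  have hPO := fun x h1 h2 => hT₁ T u (1 / 2 - η) x hTT₁ hu hu2 (by linarith) (by linarith) h1 h2
  have hKS := fun v μ h1 h2 => hks' T u τ η (T ^ (1 + ε)) (T ^ (2 * r / (1 + r) - 4 * ε)) v h l μ
    hT1 hu hu2 hτ hη0' hη1' hM0 (by positivity) hh hl h1 h2
  have hfreq := freq_sum T h l r ε χ.q (T ^ (2 * r / (1 + r) - 4 * ε)) hT1 hh1 hl1 hr hε hq1 rfl
    (by
      have : 1 ≤ Real.sqrt T := by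
        apply Real.le_sqrt_of_sq_le
        linarith
      linarith)
  obtain ⟨M, hM⟩ : ∃ M : ℝ, T ^ (1 + ε) = M := ⟨_, rfl⟩
  obtain ⟨H, hH⟩ : ∃ H : ℝ, T ^ (1 - ε) = H := ⟨_, rfl⟩
  obtain ⟨Z, hZ⟩ : ∃ Z : ℝ, T ^ (2 * r / (1 + r) - 4 * ε) = Z := ⟨_, rfl⟩
  obtain ⟨v₀, hv₀⟩ : ∃ v₀ : ℝ, T ^ (2 * ε - 1) = v₀ := ⟨_, rfl⟩
  simp only [hM, hH, hZ, hv₀] at hH1 hHinv hM0 hM10 hZs hv₀0 hv₀1 hPO hKS hfreq ⊢
  have hZ1 : 1 ≤ Z := by
    have : 1 ≤ Real.sqrt T := by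
      apply Real.le_sqrt_of_sq_le
      linarith
    linarith
  have hZ0 : 0 < Z := by linarith
  have hH0 : 0 < H := by linarith
  obtain ⟨D₀, hD₀⟩ : ∃ D₀ : ℝ, CV * CS * M ^ 10 * (l : ℝ) ^ 3 = D₀ := ⟨_, rfl⟩
  have hD₀0 : 0 ≤ D₀ := by rw [← hD₀]; positivity
  have hD₀T : D₀ ≤ CV * CS * T ^ 13 := by
    rw [← hD₀]
    have h1 : (l : ℝ) ^ 3 ≤ T ^ 2 := by
      have h2 : (l : ℝ) ^ 2 ≤ T := by
        calc (l : ℝ) ^ 2 ≤ (Real.sqrt T) ^ 2 := by gcongr
          _ = T := Real.sq_sqrt hT0.le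
      have h3 : (l : ℝ) ≤ T := hlT.trans hsT
      calc (l : ℝ) ^ 3 = (l : ℝ) ^ 2 * l := by ring
        _ ≤ T * T := by gcongr
        _ = T ^ 2 := by ring
    calc CV * CS * M ^ 10 * (l : ℝ) ^ 3 ≤ CV * CS * T ^ 11 * T ^ 2 := by gcongr
      _ = _ := by ring
  have hterm : ∀ k : ℕ, ‖(starRingEnd ℂ) (co ψ k) *
        (((k : ℝ) ^ (-(1 / 2 - r * η)) * V (k / M) : ℝ) : ℂ) *
          ei (τ * (Real.log k + Real.log l)) * Sg χ (1 / 2 - η) H u (((k : ℝ) * l) ^ r / h)‖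
      ≤ D₀ * (1 / (k : ℝ) ^ 7) := by
    intro k
    have h1 := term_le χ ψ r (1 / 2 - r * η) (1 / 2 - η) H M u (τ * (Real.log k + Real.log l)) CV
      h l k hr2.le hrη (by linarith) hH1 hM0 hh hl hCV.le hV hV2
    rw [hCS, hD₀] at h1
    exact h1
  have hs7 : Summable fun k : ℕ => D₀ * (1 / (k : ℝ) ^ 7) :=
    (Real.summable_one_div_nat_pow.mpr (by norm_num)).mul_left _
  refine ⟨Summable.of_nonneg_of_le (fun k => norm_nonneg _) hterm hs7, ?_⟩
  -- the second part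
  obtain ⟨N, hN⟩ : ∃ N : ℕ, N = ⌊T ^ 3⌋₊ := ⟨_, rfl⟩
  have hNT : (N : ℝ) ≤ T ^ 3 := by rw [hN]; exact Nat.floor_le (by positivity)
  have hNT2 : T ^ 3 < (N : ℝ) + 1 := by rw [hN]; exact Nat.lt_floor_add_one _
  let A : Finset ℕ := (Finset.range (N + 1)).filter fun k => Z < ((k : ℝ) * l) ^ r
  have hA : ∀ k, k ∈ A ↔ k ∈ Finset.range (N + 1) ∧ Z < ((k : ℝ) * l) ^ r := by
    intro k
    exact Finset.mem_filter
  have hkpos : ∀ k : ℕ, Z < ((k : ℝ) * l) ^ r → 1 ≤ k := by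
    intro k hk
    rcases Nat.eq_zero_or_pos k with h0 | h0
    · exfalso
      subst h0
      rw [Nat.cast_zero, zero_mul, Real.zero_rpow hr0.ne'] at hk
      linarith
    · exact h0
  -- support of the sum in KS
  have hsupp : ∀ k μ : ℕ, 1 ≤ μ → Z < ((k : ℝ) * l) ^ r →
      μ * (((k : ℝ) * l) ^ r / h) / χ.q ≤ u / Real.pi → k ∈ Finset.range (N + 1) := by
    intro k μ hμ hk hQ
    have hk1 : (1 : ℝ) ≤ k := by exact_mod_cast hkpos k hk
    have hμ1 : (1 : ℝ) ≤ μ := by exact_mod_cast hμ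
    have h1 : (μ : ℝ) * (((k : ℝ) * l) ^ r / h) ≤ u / Real.pi * χ.q := by
      rw [div_le_iff₀ hq0] at hQ
      exact hQ
    have h2 : u / Real.pi ≤ T := by
      rw [div_le_iff₀ hpi]
      have h3' : T * 3 ≤ T * Real.pi := mul_le_mul_of_nonneg_left hpi3.le hT0.le
      linarith
    have hx0 : 0 ≤ ((k : ℝ) * l) ^ r / h := by positivity
    have h3 : ((k : ℝ) * l) ^ r / h ≤ T * T := by
      calc ((k : ℝ) * l) ^ r / h = 1 * (((k : ℝ) * l) ^ r / h) := by ring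
        _ ≤ μ * (((k : ℝ) * l) ^ r / h) := by gcongr
        _ ≤ u / Real.pi * χ.q := h1
        _ ≤ T * T := by gcongr
    have h4 : ((k : ℝ) * l) ^ r ≤ T ^ 3 := by
      rw [div_le_iff₀ hh0] at h3
      calc _ ≤ _ := h3
        _ ≤ T * T * T := by
            have := hhT.trans hsT
            gcongr
        _ = T ^ 3 := by ring
    have h5 : (k : ℝ) ≤ ((k : ℝ) * l) ^ r := by
      have h6 : 1 ≤ (k : ℝ) * l := one_le_mul_of_one_le_of_one_le hk1 hl1
      calc (k : ℝ) ≤ k * l := le_mul_of_one_le_right (by linarith) hl1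
        _ = ((k : ℝ) * l) ^ (1 : ℝ) := (Real.rpow_one _).symm
        _ ≤ _ := Real.rpow_le_rpow_of_exponent_le h6 hr.le
    rw [Finset.mem_range, Nat.lt_succ_iff, hN]
    exact Nat.le_floor (h5.trans h4)
  have hmain := main_bound χ ψ r C T u τ η H M Z v₀ h l N hC.le hη0' hη1' hTl1 hu2 hH0 hZ0 hh hl
    hv₀0 hv₀1 (by
      intro v μ hμ hv S hS
      have h1 := (hKS v μ hμ hv).2
      rw [tsum_eq_sum (s := S)] at h1
      · refine le_trans (le_of_eq ?_) h1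
        congr 1
        refine Finset.sum_congr rfl fun k hk => ?_
        obtain ⟨_, hk1, hk2, hk3⟩ := (hS k).mp hk
        rw [if_pos ⟨hk1, hk2, hk3⟩]
        push_cast
        ring
      · intro k hk
        rw [if_neg]
        rintro ⟨hk1, hk2, hk3⟩
        exact hk ((hS k).mpr ⟨hsupp k μ hμ hk1 hk3, hk1, hk2, hk3⟩)) A hA
  -- the difference
  obtain ⟨E, hE⟩ : ∃ E : ℝ, T ^ (-(10 : ℝ)) = E := ⟨_, rfl⟩
  have hE0 : 0 ≤ E := by rw [← hE]; positivity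
  have hE1 : E = 1 / T ^ 10 := by
    rw [← hE, Real.rpow_neg hT0.le, one_div]
    congr 1
    norm_cast
  simp only [hE] at hPO
  obtain ⟨f, hf⟩ : ∃ f : ℕ → ℂ, f = fun k : ℕ => if Z < ((k : ℝ) * l) ^ r then
      (starRingEnd ℂ) (co ψ k) *
        (((k : ℝ) ^ (-(1 / 2 - r * η)) * V (k / M) : ℝ) : ℂ) *
          ei (τ * (Real.log k + Real.log l)) * Sg χ (1 / 2 - η) H u (((k : ℝ) * l) ^ r / h)
      else 0 := ⟨_, rfl⟩
  obtain ⟨g, hg⟩ : ∃ g : ℕ → ℂ, g = fun k : ℕ => if k ∈ A then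
      (starRingEnd ℂ) (co ψ k) *
        (((k : ℝ) ^ (-(1 / 2 - r * η)) * V (k / M) : ℝ) : ℂ) *
          ei (τ * (Real.log k + Real.log l)) * Mn χ (1 / 2 - η) H u v₀ (((k : ℝ) * l) ^ r / h)
      else 0 := ⟨_, rfl⟩
  have hfs : Summable f := by
    refine Summable.of_norm_bounded hs7 fun k => ?_
    rw [hf]
    dsimp only
    split_ifs
    · exact hterm k
    · rw [norm_zero]
      positivity
  have hgsum : HasSum g (∑ k ∈ A, g k) := hasSum_sum_of_ne_finset_zero (by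
    intro k hk
    rw [hg]
    exact if_neg hk)
  have hgs : Summable g := hgsum.summable
  have hgval : ∑' k, g k = ∑ k ∈ A, (starRingEnd ℂ) (co ψ k) *
        (((k : ℝ) ^ (-(1 / 2 - r * η)) * V (k / M) : ℝ) : ℂ) *
          ei (τ * (Real.log k + Real.log l)) *
            Mn χ (1 / 2 - η) H u v₀ (((k : ℝ) * l) ^ r / h) := by
    rw [hgsum.tsum_eq]
    refine Finset.sum_congr rfl fun k hk => ?_
    rw [hg]
    exact if_pos hk
  have hb1 : HasSum (fun k : ℕ => if k ∈ Finset.range (N + 1) then E else 0) ((N + 1 : ℕ) * E) := by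
    have h1 : HasSum (fun k : ℕ => if k ∈ Finset.range (N + 1) then E else 0)
        (∑ k ∈ Finset.range (N + 1), (if k ∈ Finset.range (N + 1) then E else 0)) :=
      hasSum_sum_of_ne_finset_zero (by
        intro k hk
        exact if_neg hk)
    have h2 : ∑ k ∈ Finset.range (N + 1), (if k ∈ Finset.range (N + 1) then E else 0)
        = (N + 1 : ℕ) * E := by
      rw [Finset.sum_congr rfl (fun k hk => if_pos hk), Finset.sum_const, Finset.card_range,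
        nsmul_eq_mul]
    rwa [h2] at h1
  have hb2 : HasSum (fun k : ℕ => D₀ / T ^ 15 * (1 / (k : ℝ) ^ 2)) (D₀ / T ^ 15 * z2) := by
    have := (hs2.hasSum).mul_left (D₀ / T ^ 15)
    rwa [hz2] at this
  have hdiff : ‖∑' k, (f k - g k)‖ ≤ (N + 1 : ℕ) * E + D₀ / T ^ 15 * z2 := by
    refine tsum_of_norm_bounded (hb1.add hb2) fun k => ?_
    by_cases hkN : k ∈ Finset.range (N + 1)
    · rw [if_pos hkN]
      have hpos : 0 ≤ D₀ / T ^ 15 * (1 / (k : ℝ) ^ 2) := by positivity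
      by_cases hkZ : Z < ((k : ℝ) * l) ^ r
      · have hkA : k ∈ A := (hA k).mpr ⟨hkN, hkZ⟩
        have hk1 := hkpos k hkZ
        have hk1' : (1 : ℝ) ≤ k := by exact_mod_cast hk1
        have e1 : f k - g k = (starRingEnd ℂ) (co ψ k) *
            (((k : ℝ) ^ (-(1 / 2 - r * η)) * V (k / M) : ℝ) : ℂ) *
              ei (τ * (Real.log k + Real.log l)) *
                (Sg χ (1 / 2 - η) H u (((k : ℝ) * l) ^ r / h)
                  - Mn χ (1 / 2 - η) H u v₀ (((k : ℝ) * l) ^ r / h)) := by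
          rw [hf, hg]
          dsimp only
          rw [if_pos hkZ, if_pos hkA]
          ring
        have h1 := (coef_le ψ (1 / 2 - r * η) M k hk1 hrη hM0 hV).2
        have h2 : 1 ≤ ((k : ℝ) * l) ^ r / h := by
          rw [le_div_iff₀ hh0]
          linarith
        have h3 : ((k : ℝ) * l) ^ r / h ≤ T ^ (10 : ℝ) := by
          have hkT : (k : ℝ) ≤ T ^ 3 := by
            rw [Finset.mem_range, Nat.lt_succ_iff] at hkN
            have : (k : ℝ) ≤ N := by exact_mod_cast hkN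
            linarith
          have hklT : (k : ℝ) * l ≤ T ^ 4 := by
            calc (k : ℝ) * l ≤ T ^ 3 * T := by
                  have := hlT.trans hsT
                  gcongr
              _ = T ^ 4 := by ring
          have hkl1 : 1 ≤ (k : ℝ) * l := one_le_mul_of_one_le_of_one_le hk1' hl1
          calc ((k : ℝ) * l) ^ r / h ≤ ((k : ℝ) * l) ^ r := div_le_self (by positivity) hh1
            _ ≤ ((k : ℝ) * l) ^ (2 : ℝ) := Real.rpow_le_rpow_of_exponent_le hkl1 (by linarith)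
            _ ≤ (T ^ 4) ^ (2 : ℝ) := Real.rpow_le_rpow (by linarith) hklT (by norm_num)
            _ = T ^ 8 := by
                have : (T ^ 4) ^ (2 : ℝ) = (T ^ 4) ^ 2 := by norm_cast
                rw [this]
                ring
            _ ≤ T ^ 10 := pow_le_pow_right₀ hT1 (by norm_num)
            _ = _ := by norm_cast
        have h4 := hPO _ h2 h3
        rw [e1, norm_mul, norm_mul _ (ei _), norm_ei, mul_one]
        calc _ ≤ 1 * E := by gcongr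
          _ ≤ _ := by linarith
      · have hkA : k ∉ A := fun hc => hkZ ((hA k).mp hc).2
        have e1 : f k - g k = 0 := by
          rw [hf, hg]
          dsimp only
          rw [if_neg hkZ, if_neg hkA, sub_zero]
        rw [e1, norm_zero]
        positivity
    · rw [if_neg hkN, zero_add]
      have hkA : k ∉ A := fun hc => hkN ((hA k).mp hc).1
      have hkT : T ^ 3 ≤ (k : ℝ) := by
        rw [Finset.mem_range, not_lt] at hkN
        have : ((N + 1 : ℕ) : ℝ) ≤ k := by exact_mod_cast hkN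
        push_cast at this
        linarith
      have hk0 : (0 : ℝ) < k := lt_of_lt_of_le (by positivity) hkT
      have h1 : ‖f k - g k‖ ≤ D₀ * (1 / (k : ℝ) ^ 7) := by
        rw [hf, hg]
        dsimp only
        rw [if_neg hkA, sub_zero]
        split_ifs
        · exact hterm k
        · rw [norm_zero]
          positivity
      refine h1.trans ?_
      have h2 : (T ^ 3) ^ 5 ≤ (k : ℝ) ^ 5 := by gcongr
      have h3 : (T ^ 3) ^ 5 = T ^ 15 := by ring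
      rw [h3] at h2
      have h4 : 1 / (k : ℝ) ^ 7 ≤ 1 / (T ^ 15 * (k : ℝ) ^ 2) := by
        apply one_div_le_one_div_of_le (by positivity)
        calc T ^ 15 * (k : ℝ) ^ 2 ≤ (k : ℝ) ^ 5 * (k : ℝ) ^ 2 := by gcongr
          _ = _ := by ring
      calc D₀ * (1 / (k : ℝ) ^ 7) ≤ D₀ * (1 / (T ^ 15 * (k : ℝ) ^ 2)) := by gcongr
        _ = _ := by field_simp
  have hKt : Kt χ ψ r τ η H M u Z h l = ∑' k, f k := by
    unfold Kt
    rw [hf]
  have hsplit : ∑' k, f k = ∑' k, (f k - g k) + ∑' k, g k := by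
    rw [hfs.tsum_sub hgs]
    ring
  -- the sum over frequencies
  have hKbsum : ∑ μ ∈ Finset.Icc 1 ⌊χ.q * (T * h) / Z⌋₊,
        C * (T / μ) ^ (1 / 2 + η) * ((T * h / μ) ^ (1 / r) / l) ^ (-(1 / 2 - r * η)) *
          (Real.sqrt T + (T * h / μ) ^ (1 / r) / l / Real.sqrt T)
      ≤ C * Real.exp (3 * R) * (2 * χ.q * Real.sqrt (h * l) * T ^ (1 / 2 + 4 * ε)
        + 2 * r / (r - 1) * χ.q * Real.sqrt (T * h)) := by
    refine (Finset.sum_le_sum fun μ hμ => ?_).trans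
      ((Finset.mul_sum _ _ _).symm.le.trans (mul_le_mul_of_nonneg_left hfreq (by positivity)))
    have hμ1 : (1 : ℝ) ≤ μ := by exact_mod_cast (Finset.mem_Icc.mp hμ).1
    exact KSb_le T h l μ r R C η hTl1 hh1 hl1 hμ1 (hhT.trans hsT) hr (by linarith) hC.le hη
  -- numbers
  have hshl : 1 ≤ Real.sqrt (h * l) := by
    apply Real.le_sqrt_of_sq_le
    rw [one_pow]
    exact one_le_mul_of_one_le_of_one_le hh1 hl1
  obtain ⟨B, hB⟩ : ∃ B : ℝ, T ^ (-(1 / 2) + 5 * ε) = B := ⟨_, rfl⟩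
  have hB0 : 0 < B := by rw [← hB]; positivity
  have hTB : 1 / T ^ 2 ≤ Real.sqrt (h * l) * B := by
    have h1 : 1 / T ^ 2 = T ^ (-(2 : ℝ)) := by
      rw [Real.rpow_neg hT0.le, one_div]
      congr 1
      norm_cast
    have h2 : T ^ (-(2 : ℝ)) ≤ B := by
      rw [← hB]
      exact Real.rpow_le_rpow_of_exponent_le hT1 (by linarith)
    rw [h1]
    calc T ^ (-(2 : ℝ)) ≤ 1 * B := by rw [one_mul]; exact h2
      _ ≤ _ := mul_le_mul_of_nonneg_right hshl hB0.le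
  have hpart1 : 10 / H * (C * Real.exp (3 * R) * (2 * χ.q * Real.sqrt (h * l) * T ^ (1 / 2 + 4 * ε)
        + 2 * r / (r - 1) * χ.q * Real.sqrt (T * h))) ≤ K₁ * (Real.sqrt (h * l) * B) := by
    have h1 : Real.sqrt (T * h) ≤ T ^ (1 / 2 + 4 * ε) * Real.sqrt (h * l) := by
      rw [Real.sqrt_mul hT0.le]
      have h2 : Real.sqrt T ≤ T ^ (1 / 2 + 4 * ε) := by
        rw [Real.sqrt_eq_rpow]
        exact Real.rpow_le_rpow_of_exponent_le hT1 (by linarith)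
      have h3 : Real.sqrt h ≤ Real.sqrt (h * l) := Real.sqrt_le_sqrt (le_mul_of_one_le_right hh0.le hl1)
      gcongr
    have h4 : 10 / H = 10 * T ^ (-1 + ε) := by
      rw [← hHinv]
      ring
    have h5 : T ^ (-1 + ε) * T ^ (1 / 2 + 4 * ε) = B := by
      rw [← hB, ← Real.rpow_add hT0]
      congr 1
      ring
    have h6 : 0 ≤ 2 * r / (r - 1) := by positivity
    rw [h4, hK₁]
    calc _ ≤ 10 * T ^ (-1 + ε) * (C * Real.exp (3 * R) * (2 * χ.q * Real.sqrt (h * l)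
          * T ^ (1 / 2 + 4 * ε) + 2 * r / (r - 1) * χ.q * (T ^ (1 / 2 + 4 * ε)
            * Real.sqrt (h * l)))) := by gcongr
      _ = 10 * C * Real.exp (3 * R) * χ.q * (2 + 2 * r / (r - 1)) * (Real.sqrt (h * l)
          * (T ^ (-1 + ε) * T ^ (1 / 2 + 4 * ε))) := by ring
      _ = _ := by rw [h5]
  have hpart2 : ((N + 1 : ℕ) : ℝ) * E ≤ 2 * (Real.sqrt (h * l) * B) := by
    have h1 : ((N + 1 : ℕ) : ℝ) ≤ 2 * T ^ 3 := by
      push_cast
      have : 1 ≤ T ^ 3 := one_le_pow₀ hT1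
      linarith
    have h2 : T ^ 3 * E ≤ 1 / T ^ 2 := by
      rw [hE1, mul_one_div, div_le_div_iff₀ (by positivity) (by positivity)]
      calc T ^ 3 * T ^ 2 = T ^ 5 := by ring
        _ ≤ T ^ 10 := pow_le_pow_right₀ hT1 (by norm_num)
        _ = _ := by ring
    calc ((N + 1 : ℕ) : ℝ) * E ≤ 2 * T ^ 3 * E := by gcongr
      _ = 2 * (T ^ 3 * E) := by ring
      _ ≤ 2 * (1 / T ^ 2) := by gcongr
      _ ≤ _ := by gcongr
  have hpart3 : D₀ / T ^ 15 * z2 ≤ CV * CS * z2 * (Real.sqrt (h * l) * B) := by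
    have h1 : D₀ / T ^ 15 ≤ CV * CS * (1 / T ^ 2) := by
      rw [div_le_iff₀ (by positivity)]
      refine hD₀T.trans (le_of_eq ?_)
      field_simp
    calc D₀ / T ^ 15 * z2 ≤ CV * CS * (1 / T ^ 2) * z2 := by gcongr
      _ = CV * CS * z2 * (1 / T ^ 2) := by ring
      _ ≤ _ := by gcongr
  have hfin := hT₃ T hTT₃
  rw [hKt, hsplit, hgval]
  refine (norm_add_le _ _).trans ?_
  calc _ ≤ ((N + 1 : ℕ) * E + D₀ / T ^ 15 * z2) + 10 / H * (C * Real.exp (3 * R) *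
        (2 * χ.q * Real.sqrt (h * l) * T ^ (1 / 2 + 4 * ε)
          + 2 * r / (r - 1) * χ.q * Real.sqrt (T * h))) := by
        apply add_le_add hdiff
        refine hmain.trans ?_
        gcongr
    _ ≤ (2 * (Real.sqrt (h * l) * B) + CV * CS * z2 * (Real.sqrt (h * l) * B))
        + K₁ * (Real.sqrt (h * l) * B) := by gcongr
    _ = (K₁ + 2 + CV * CS * z2) * (Real.sqrt (h * l) * B) := by ring
    _ ≤ T ^ (δ / 2) * (Real.sqrt (h * l) * B) := by gcongr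
    _ = T ^ (δ / 2) * T ^ (-(1 / 2) + 5 * ε) * Real.sqrt (h * l) := by rw [hB]; ring
    _ ≤ _ := by
        rw [← Real.rpow_add hT0]
        exact mul_le_mul_of_nonneg_right (Real.rpow_le_rpow_of_exponent_le hT1 (by linarith))
          (Real.sqrt_nonneg _)

end Pool.Agent.H11.PZ
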