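import Pool.Agent.H28.MZ.Targets

/-!
# Module PN of the board for MP_9f0eeb_nt: Poisson summation
helper11
-/

set_option autoImplicit false

open Complex MeasureTheory Set Filter Topology

namespace Pool.Agent.H11.PZ

open Pool.Agent.H28.MZ
open Pool.Agent.H23.GLH (PrimChar)

theorem norm_ei (x : ℝ) : ‖ei x‖ = 1 := by
  unfold ei
  exact norm_exp_ofReal_mul_I x

theorem ei_add (x y : ℝ) : ei (x + y) = ei x * ei y := by
  unfold ei
  rw [← Complex.exp_add]
  congr 1
  push_cast
  ring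

theorem continuous_ei : Continuous ei := by
  unfold ei
  fun_prop

theorem norm_gf (a H u x y : ℝ) (hy : 0 < y) :
    ‖gf a H u x y‖ = y ^ (-a) * Real.exp (-(H ^ 2 * (Real.log x - Real.log y) ^ 2 / 4)) := by
  unfold gf
  rw [norm_mul, norm_ei, mul_one, Complex.norm_real, Real.norm_eq_abs, abs_of_nonneg]
  positivity

theorem exp_sq_le (H w : ℝ) (hH : 1 ≤ H) :
    Real.exp (-(H ^ 2 * w ^ 2 / 4)) ≤ Real.exp (4 + 2 * w) ∧
      Real.exp (-(H ^ 2 * w ^ 2 / 4)) ≤ Real.exp (4 - 2 * w) := by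
  have h1 : w ^ 2 ≤ H ^ 2 * w ^ 2 := by
    have : 1 ≤ H ^ 2 := by nlinarith
    nlinarith [sq_nonneg w]
  constructor
  · apply Real.exp_le_exp.mpr
    nlinarith [sq_nonneg (w / 2 + 2)]
  · apply Real.exp_le_exp.mpr
    nlinarith [sq_nonneg (w / 2 - 2)]

theorem norm_gf_big (a H u x y : ℝ) (hx : 0 < x) (hH : 1 ≤ H) (ha : 0 ≤ a) (hy : 1 ≤ y) :
    ‖gf a H u x y‖ ≤ Real.exp 4 * x ^ 2 * y ^ (-2 : ℝ) := by
  have hy0 : 0 < y := by linarith
  rw [norm_gf a H u x y hy0]
  have h1 : y ^ (-a) ≤ 1 := Real.rpow_le_one_of_one_le_of_nonpos hy (by linarith)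
  have h2 := (exp_sq_le H (Real.log x - Real.log y) hH).1
  have h3 : Real.exp (4 + 2 * (Real.log x - Real.log y)) = Real.exp 4 * x ^ 2 * y ^ (-2 : ℝ) := by
    rw [Real.rpow_neg hy0.le]
    have e1 : 4 + 2 * (Real.log x - Real.log y) = 4 + (Real.log x + Real.log x)
      - (Real.log y + Real.log y) := by ring
    rw [e1, Real.exp_sub, Real.exp_add, Real.exp_add, Real.exp_add, Real.exp_log hx,
      Real.exp_log hy0]
    have e2 : y ^ (2 : ℝ) = y ^ 2 := by norm_cast
    rw [e2]
    field_simp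
  rw [h3] at h2
  calc y ^ (-a) * Real.exp (-(H ^ 2 * (Real.log x - Real.log y) ^ 2 / 4))
      ≤ 1 * (Real.exp 4 * x ^ 2 * y ^ (-2 : ℝ)) := by gcongr
    _ = _ := one_mul _

theorem norm_gf_small (a H u x y : ℝ) (hx : 0 < x) (hH : 1 ≤ H) (ha : a ≤ 1) (hy0 : 0 < y)
    (hy : y ≤ 1) : ‖gf a H u x y‖ ≤ Real.exp 4 / x ^ 2 * y := by
  rw [norm_gf a H u x y hy0]
  have h1 : y ^ (-a) ≤ y ^ (-1 : ℝ) :=
    Real.rpow_le_rpow_of_exponent_ge hy0 hy (by linarith)
  have h2 := (exp_sq_le H (Real.log x - Real.log y) hH).2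
  have h3 : Real.exp (4 - 2 * (Real.log x - Real.log y)) = Real.exp 4 / x ^ 2 * y ^ 2 := by
    have e1 : 4 - 2 * (Real.log x - Real.log y) = 4 + (Real.log y + Real.log y)
      - (Real.log x + Real.log x) := by ring
    rw [e1, Real.exp_sub, Real.exp_add, Real.exp_add, Real.exp_add, Real.exp_log hx,
      Real.exp_log hy0]
    field_simp
  rw [h3] at h2
  calc y ^ (-a) * Real.exp (-(H ^ 2 * (Real.log x - Real.log y) ^ 2 / 4))
      ≤ y ^ (-1 : ℝ) * (Real.exp 4 / x ^ 2 * y ^ 2) := by gcongr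
    _ = _ := by
      rw [Real.rpow_neg_one]
      field_simp

/-- the function extended by zero -/
noncomputable def gz (a H u x y : ℝ) : ℂ := if 0 < y then gf a H u x y else 0

theorem gz_pos (a H u x y : ℝ) (hy : 0 < y) : gz a H u x y = gf a H u x y := if_pos hy

theorem gz_nonpos (a H u x y : ℝ) (hy : y ≤ 0) : gz a H u x y = 0 := if_neg (not_lt.mpr hy)

theorem gz_cont (a H u x : ℝ) (hx : 0 < x) (hH : 1 ≤ H) (ha1 : a ≤ 1) :
    Continuous (gz a H u x) := by
  rw [continuous_iff_continuousAt]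
  intro y
  rcases lt_trichotomy y 0 with hy | hy | hy
  · have : gz a H u x =ᶠ[𝓝 y] fun _ => 0 := by
      filter_upwards [eventually_lt_nhds hy] with z hz
      exact gz_nonpos a H u x z hz.le
    exact this.continuousAt
  · subst hy
    have h0 : gz a H u x 0 = 0 := gz_nonpos a H u x 0 le_rfl
    rw [ContinuousAt, h0]
    have hlim : Tendsto (fun z : ℝ => Real.exp 4 / x ^ 2 * |z|) (𝓝 0) (𝓝 0) := by
      have : Continuous (fun z : ℝ => Real.exp 4 / x ^ 2 * |z|) := by fun_prop
      have h := this.tendsto 0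
      simpa using h
    refine squeeze_zero_norm' ?_ hlim
    filter_upwards [eventually_lt_nhds (show (0 : ℝ) < 1 by norm_num)] with z hz
    by_cases hz0 : 0 < z
    · rw [gz_pos a H u x z hz0, abs_of_pos hz0]
      exact norm_gf_small a H u x z hx hH ha1 hz0 hz.le
    · rw [gz_nonpos a H u x z (not_lt.mp hz0), norm_zero]
      positivity
  · have : gz a H u x =ᶠ[𝓝 y] fun z => gf a H u x z := by
      filter_upwards [eventually_gt_nhds hy] with z hz
      exact gz_pos a H u x z hz
    refine ContinuousAt.congr ?_ this.symm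
    unfold gf
    have hy' : y ≠ 0 := hy.ne'
    have c1 : ContinuousAt (fun z : ℝ => z ^ (-a)) y :=
      Real.continuousAt_rpow_const y (-a) (Or.inl hy')
    have c2 : ContinuousAt (fun z : ℝ => Real.log z) y := Real.continuousAt_log hy'
    have c3 : ContinuousAt (fun z : ℝ => z ^ (-a) *
        Real.exp (-(H ^ 2 * (Real.log x - Real.log z) ^ 2 / 4))) y := by fun_prop
    have c4 : ContinuousAt (fun z : ℝ => ei (u * (Real.log x - Real.log z))) y := by
      apply continuous_ei.continuousAt.comp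
      fun_prop
    exact (Complex.continuous_ofReal.continuousAt.comp c3).mul c4

theorem gz_le (a H u x y : ℝ) (hx : 0 < x) (hH : 1 ≤ H) (ha : 0 ≤ a) (hy : 1 ≤ |y|) :
    ‖gz a H u x y‖ ≤ Real.exp 4 * x ^ 2 * |y| ^ (-2 : ℝ) := by
  by_cases h0 : 0 < y
  · rw [gz_pos a H u x y h0]
    rw [abs_of_pos h0] at hy ⊢
    exact norm_gf_big a H u x y hx hH ha hy
  · rw [gz_nonpos a H u x y (not_lt.mp h0), norm_zero]
    positivity

theorem fourier_gz (a H u x : ℝ) (q : ℕ) (hq : 0 < q) (ν : ℤ) :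
    FourierTransform.fourier (fun y : ℝ => gz a H u x (q * y)) (ν : ℝ)
      = (1 / (q : ℂ)) * gh a H u x (ν / q) := by
  have hq' : (0 : ℝ) < q := by exact_mod_cast hq
  rw [Real.fourier_real_eq_integral_exp_smul]
  have e1 : (fun v : ℝ => Complex.exp (↑(-2 * Real.pi * v * (ν : ℝ)) * Complex.I) •
        gz a H u x (q * v))
      = fun v : ℝ => (fun y : ℝ => ei (-(2 * Real.pi * (ν / q) * y)) * gz a H u x y) (q * v) := by
    funext v
    dsimp only
    rw [smul_eq_mul]
    congr 1
    unfold ei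
    congr 2
    rw [Complex.ofReal_inj]
    field_simp
  rw [e1, MeasureTheory.Measure.integral_comp_mul_left
    (fun y : ℝ => ei (-(2 * Real.pi * (ν / q) * y)) * gz a H u x y) (q : ℝ)]
  unfold gh
  have e2 : (∫ y : ℝ, ei (-(2 * Real.pi * (ν / q) * y)) * gz a H u x y)
      = ∫ y in Ioi (0 : ℝ), gf a H u x y * ei (-(2 * Real.pi * (ν / q) * y)) := by
    rw [← MeasureTheory.integral_indicator measurableSet_Ioi]
    congr 1
    funext y
    by_cases hy : 0 < y
    · rw [indicator_of_mem (show y ∈ Ioi (0 : ℝ) from hy), gz_pos a H u x y hy, mul_comm]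
    · rw [indicator_of_notMem (show y ∉ Ioi (0 : ℝ) from hy),
        gz_nonpos a H u x y (not_lt.mp hy), mul_zero]
  rw [e2, abs_of_pos (by positivity), Complex.real_smul]
  congr 1
  push_cast
  rw [one_div]

theorem pn : T_PN := by
  intro π a H u x hx hH ha ha1 hsum
  have := π.q_ne
  have hq : 0 < π.q := Nat.pos_of_ne_zero π.q_ne.out
  have hq' : (0 : ℝ) < π.q := by exact_mod_cast hq
  have hqc : (π.q : ℂ) ≠ 0 := by exact_mod_cast hq.ne'
  have hcont := gz_cont a H u x hx hH ha1
  -- decay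
  have hO : (fun y : ℝ => gz a H u x (π.q * y)) =O[cocompact ℝ] fun y => |y| ^ (-2 : ℝ) := by
    rw [Asymptotics.isBigO_iff]
    refine ⟨Real.exp 4 * x ^ 2, ?_⟩
    have h1 : ∀ᶠ y : ℝ in cocompact ℝ, 1 ≤ ‖y‖ :=
      (tendsto_norm_cocompact_atTop (E := ℝ)).eventually_ge_atTop 1
    filter_upwards [h1] with y hy
    rw [Real.norm_eq_abs] at hy
    have hq1 : (1 : ℝ) ≤ π.q := by exact_mod_cast hq
    have h2 : |y| ≤ |(π.q : ℝ) * y| := by
      rw [abs_mul, abs_of_pos hq']
      nlinarith [abs_nonneg y]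
    have h3 := gz_le a H u x (π.q * y) hx hH ha (hy.trans h2)
    have h4 : |(π.q : ℝ) * y| ^ (-2 : ℝ) ≤ |y| ^ (-2 : ℝ) :=
      Real.rpow_le_rpow_of_nonpos (by linarith) h2 (by norm_num)
    rw [Real.norm_eq_abs (|y| ^ (-2 : ℝ)), abs_of_nonneg (by positivity)]
    calc _ ≤ _ := h3
      _ ≤ _ := by gcongr
  have hc2 : Continuous (fun y : ℝ => gz a H u x (π.q * y)) := by
    exact hcont.comp (continuous_const.mul continuous_id)
  have hF : Summable fun n : ℤ =>
      FourierTransform.fourier (fun y : ℝ => gz a H u x (π.q * y)) (n : ℝ) := by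
    have : (fun n : ℤ => FourierTransform.fourier (fun y : ℝ => gz a H u x (π.q * y)) (n : ℝ))
        = fun n : ℤ => (1 / (π.q : ℂ)) * gh a H u x (n / π.q) := by
      funext n
      exact fourier_gz a H u x π.q hq n
    rw [this]
    exact hsum.mul_left _
  -- Poisson in each residue class
  have hP : ∀ b : ℕ, ∑' j : ℤ, gz a H u x ((b : ℝ) + π.q * j)
      = ∑' ν : ℤ, (1 / (π.q : ℂ)) * (ei (2 * Real.pi * b * ν / π.q) * gh a H u x (ν / π.q)) := by
    intro b
    have h := Real.tsum_eq_tsum_fourier_of_rpow_decay_of_summable hc2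
      (show (1 : ℝ) < 2 by norm_num) hO hF ((b : ℝ) / π.q)
    have e1 : (fun j : ℤ => gz a H u x (π.q * ((b : ℝ) / π.q + j)))
        = fun j : ℤ => gz a H u x ((b : ℝ) + π.q * j) := by
      funext j
      congr 1
      field_simp
    rw [e1] at h
    rw [h]
    refine tsum_congr fun ν => ?_
    rw [fourier_gz a H u x π.q hq ν, fourier_coe_apply]
    have e2 : Complex.exp (2 * ↑Real.pi * Complex.I * ↑ν * ↑((b : ℝ) / (π.q : ℝ)) / ((1 : ℝ) : ℂ))
        = ei (2 * Real.pi * b * ν / π.q) := by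
      unfold ei
      congr 1
      push_cast
      ring
    rw [e2]
    ring
  -- the left side
  have hFs : Summable fun m : ℕ => co π m * gf a H u x m := by
    apply summable_of_isBigO_nat (g := fun m : ℕ => (m : ℝ) ^ (-2 : ℝ))
    · rw [Real.summable_nat_rpow]
      norm_num
    · rw [Asymptotics.isBigO_iff]
      refine ⟨Real.exp 4 * x ^ 2, ?_⟩
      filter_upwards [eventually_ge_atTop 1] with m hm
      have hm' : (1 : ℝ) ≤ m := by exact_mod_cast hm
      have h1 := norm_gf_big a H u x m hx hH ha hm'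
      have h2 : ‖co π m‖ ≤ 1 := by
        unfold co
        split_ifs
        · simp
        · exact DirichletCharacter.norm_le_one _ _
      rw [norm_mul, Real.norm_eq_abs, abs_of_nonneg (by positivity)]
      calc ‖co π m‖ * ‖gf a H u x m‖ ≤ 1 * (Real.exp 4 * x ^ 2 * (m : ℝ) ^ (-2 : ℝ)) := by gcongr
        _ = _ := one_mul _
  have hL : Sg π a H u x
      = ∑ b ∈ Finset.range π.q, π.χ (b : ZMod π.q) * ∑' j : ℤ, gz a H u x ((b : ℝ) + π.q * j) := by
    unfold Sg
    rw [Nat.sumByResidueClasses hFs π.q]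
    have e1 : ∀ b : ZMod π.q, ∑' m : ℕ, co π (b.val + π.q * m) * gf a H u x ((b.val + π.q * m : ℕ) : ℝ)
        = π.χ ((b.val : ℕ) : ZMod π.q) * ∑' j : ℤ, gz a H u x ((b.val : ℝ) + π.q * j) := by
      intro b
      rw [← tsum_mul_left]
      have hinj : Function.Injective (fun m : ℕ => (m : ℤ)) := Nat.cast_injective
      have hsupp : Function.support (fun j : ℤ => π.χ ((b.val : ℕ) : ZMod π.q) *
          gz a H u x ((b.val : ℝ) + π.q * j)) ⊆ range (fun m : ℕ => (m : ℤ)) := by
        intro j hj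
        rw [Function.mem_support] at hj
        by_contra hn
        apply hj
        have hj0 : j < 0 := by
          by_contra hc
          push Not at hc
          exact hn ⟨j.toNat, by simp [hc]⟩
        have hj1 : (j : ℝ) ≤ -1 := by
          have : j ≤ -1 := by omega
          exact_mod_cast this
        have hb : (b.val : ℝ) < π.q := by exact_mod_cast ZMod.val_lt b
        rw [gz_nonpos, mul_zero]
        nlinarith
      rw [← hinj.tsum_eq hsupp]
      refine tsum_congr fun m => ?_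
      by_cases h0 : b.val + π.q * m = 0
      · have h1 : ((b.val : ℝ) + π.q * ((m : ℤ) : ℝ)) = 0 := by exact_mod_cast h0
        rw [h0, h1, gz_nonpos a H u x 0 le_rfl, mul_zero]
        unfold co
        simp
      · have h1 : (0 : ℝ) < ((b.val + π.q * m : ℕ) : ℝ) := by
          exact_mod_cast Nat.pos_of_ne_zero h0
        have h2 : ((b.val : ℝ) + π.q * ((m : ℤ) : ℝ)) = ((b.val + π.q * m : ℕ) : ℝ) := by
          push_cast
          ring
        rw [h2, gz_pos _ _ _ _ _ h1]
        congr 1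
        unfold co
        rw [if_neg h0]
        congr 1
        push_cast
        simp
    rw [Finset.sum_congr rfl (fun b _ => e1 b)]
    refine Finset.sum_nbij' (fun b : ZMod π.q => b.val) (fun n : ℕ => (n : ZMod π.q)) ?_ ?_ ?_ ?_ ?_
    · intro b _
      rw [Finset.mem_range]
      exact ZMod.val_lt b
    · intro n _
      exact Finset.mem_univ _
    · intro b _
      simp
    · intro n hn
      rw [Finset.mem_range] at hn
      exact ZMod.val_cast_of_lt hn
    · intro b _
      rfl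
  rw [hL, Finset.sum_congr rfl (fun b _ => by rw [hP b])]
  -- exchange
  have hsb : ∀ b : ℕ, Summable fun ν : ℤ =>
      ei (2 * Real.pi * b * ν / π.q) * gh a H u x (ν / π.q) := by
    intro b
    apply Summable.of_norm
    have : (fun ν : ℤ => ‖ei (2 * Real.pi * b * ν / π.q) * gh a H u x (ν / π.q)‖)
        = fun ν : ℤ => ‖gh a H u x (ν / π.q)‖ := by
      funext ν
      rw [norm_mul, norm_ei, one_mul]
    rw [this]
    exact hsum.norm
  have e3 : ∀ b ∈ Finset.range π.q, π.χ (b : ZMod π.q) * ∑' ν : ℤ, (1 / (π.q : ℂ)) *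
        (ei (2 * Real.pi * b * ν / π.q) * gh a H u x (ν / π.q))
      = (1 / (π.q : ℂ)) * ∑' ν : ℤ, π.χ (b : ZMod π.q) *
        (ei (2 * Real.pi * b * ν / π.q) * gh a H u x (ν / π.q)) := by
    intro b _
    rw [tsum_mul_left, tsum_mul_left]
    ring
  rw [Finset.sum_congr rfl e3, ← Finset.mul_sum, ← Summable.tsum_finsetSum]
  · congr 1
    refine tsum_congr fun ν => ?_
    rw [Finset.sum_mul]
    refine Finset.sum_congr rfl fun b _ => ?_
    ring
  · intro b _
    exact (hsb b).mul_left _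

end Pool.Agent.H11.PZ
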