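import Pool.Agent.H11.PZ.GI

/-!
# Module PO of the board for MP_9f0eeb_nt: the sum over `m` after Poisson summation
helper11
-/

set_option autoImplicit false

open Complex MeasureTheory Set Filter Topology

namespace Pool.Agent.H11.PZ

open Pool.Agent.H28.MZ
open Pool.Agent.H23.GLH (PrimChar)

/-- the majorant -/
noncomputable def hq (q : ℕ) (ν : ℤ) : ℝ := 1 / (1 + ((ν : ℝ) / q) ^ 2)

theorem hq_nonneg (q : ℕ) (ν : ℤ) : 0 ≤ hq q ν := by unfold hq; positivity

theorem hq_summable (q : ℕ) (hq0 : 0 < q) : Summable (hq q) := by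
  have h1 : Summable fun n : ℤ => (q : ℝ) ^ 2 * (1 / (n : ℝ) ^ 2) :=
    (Real.summable_one_div_int_pow.mpr (by norm_num)).mul_left _
  refine Summable.of_norm_bounded_eventually h1 ?_
  have : {(0 : ℤ)}ᶜ ∈ cofinite := (finite_singleton (0 : ℤ)).compl_mem_cofinite
  filter_upwards [this] with n hn
  have hn' : (n : ℝ) ≠ 0 := by
    have : n ≠ 0 := hn
    exact_mod_cast this
  have hn2 : 0 < (n : ℝ) ^ 2 := by positivity
  have hq' : (0 : ℝ) < q := by exact_mod_cast hq0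
  rw [Real.norm_eq_abs, abs_of_nonneg (hq_nonneg q n)]
  unfold hq
  rw [mul_one_div, div_le_div_iff₀ (by positivity) hn2, div_pow]
  have : (q : ℝ) ^ 2 * (1 + (n : ℝ) ^ 2 / q ^ 2) = q ^ 2 + n ^ 2 := by field_simp
  rw [this, one_mul]
  nlinarith [sq_nonneg (q : ℝ)]

theorem po (hpn : T_PN) (hft : T_FT) : T_PO := by
  classical
  intro π ε A hε hε1 hA
  have := π.q_ne
  have hq : 0 < π.q := Nat.pos_of_ne_zero π.q_ne.out
  have hq' : (0 : ℝ) < π.q := by exact_mod_cast hq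
  have hq1 : (1 : ℝ) ≤ π.q := by exact_mod_cast hq
  have hqc : (π.q : ℂ) ≠ 0 := by exact_mod_cast hq.ne'
  obtain ⟨T₁, hT₁⟩ := hft ε (A + 2) hε hε1 (by linarith)
  have hKs := hq_summable π.q hq
  obtain ⟨K, hK⟩ : ∃ K : ℝ, ∑' ν : ℤ, Pool.Agent.H11.PZ.hq π.q ν = K := ⟨_, rfl⟩
  have hK0 : 0 ≤ K := by rw [← hK]; exact tsum_nonneg (hq_nonneg π.q)
  refine ⟨max T₁ (max 1 (2 * π.q + K)), ?_⟩
  intro T u a x hT hu hu2 ha ha1 hx hx10
  have hTT₁ : T₁ ≤ T := (le_max_left _ _).trans hT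
  have hT1 : 1 ≤ T := (le_max_left _ _).trans ((le_max_right _ _).trans hT)
  have hTK : 2 * π.q + K ≤ T := (le_max_right _ _).trans ((le_max_right _ _).trans hT)
  have hT0 : 0 < T := by linarith
  have hx0 : 0 < x := by linarith
  have hpi := Real.pi_pos
  have hpi3 := Real.pi_gt_three
  have hH : 1 ≤ T ^ (1 - ε) := Real.one_le_rpow hT1 (by linarith)
  obtain ⟨H, hHe⟩ : ∃ H : ℝ, T ^ (1 - ε) = H := ⟨_, rfl⟩
  obtain ⟨v₀, hv₀⟩ : ∃ v₀ : ℝ, T ^ (2 * ε - 1) = v₀ := ⟨_, rfl⟩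
  obtain ⟨B, hB⟩ : ∃ B : ℝ, T ^ (-(A + 2)) = B := ⟨_, rfl⟩
  have hB0 : 0 ≤ B := by rw [← hB]; positivity
  have hF := fun ξ => hT₁ T u a x ξ hTT₁ hu hu2 ha ha1 hx hx10
  rw [hHe] at hH ⊢
  rw [hv₀]
  simp only [hHe, hv₀, hB] at hF
  obtain ⟨S, hS⟩ : ∃ S : Finset ℕ, Fr π.q u x = S := ⟨_, rfl⟩
  have hSmem : ∀ μ : ℕ, μ ∈ S ↔ (1 ≤ μ ∧ μ ≤ ⌊π.q * u⌋₊) ∧ u / (4 * Real.pi) ≤ μ * x / π.q ∧
      μ * x / π.q ≤ u / Real.pi := by
    intro μ
    rw [← hS]
    unfold Fr
    rw [Finset.mem_filter, Finset.mem_Icc]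
  have hScard : (S.card : ℝ) ≤ 2 * π.q * T := by
    have h1 : S ⊆ Finset.Icc 1 ⌊π.q * u⌋₊ := by
      intro μ hμ
      rw [Finset.mem_Icc]
      exact ((hSmem μ).mp hμ).1
    have h2 := Finset.card_le_card h1
    rw [Nat.card_Icc, Nat.add_sub_cancel] at h2
    have h3 : (S.card : ℝ) ≤ (⌊π.q * u⌋₊ : ℝ) := by exact_mod_cast h2
    have h4 : (⌊π.q * u⌋₊ : ℝ) ≤ π.q * u :=
      Nat.floor_le (mul_nonneg hq'.le (by linarith))
    nlinarith
  -- the exceptional frequencies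
  let E : Finset ℤ := S.image fun μ : ℕ => -(μ : ℤ)
  have hE : ∀ ν : ℤ, ν ∉ E → ‖gh a H u x (ν / π.q)‖ ≤ B * Pool.Agent.H11.PZ.hq π.q ν := by
    intro ν hν
    have hgoal : ‖gh a H u x (ν / π.q)‖ ≤ B / (1 + ((ν : ℝ) / π.q) ^ 2) := by
      apply (hF ((ν : ℝ) / π.q)).1
      rcases le_or_gt 0 ν with h0 | h0
      · left
        have : (0 : ℝ) ≤ ν := by exact_mod_cast h0
        positivity
      · right
        obtain ⟨μ, hμ⟩ : ∃ μ : ℕ, ν = -(μ : ℤ) := ⟨ν.natAbs, by omega⟩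
        have hμ1 : 1 ≤ μ := by omega
        have hνμ : (ν : ℝ) = -(μ : ℝ) := by rw [hμ]; push_cast; ring
        have e1 : (ν : ℝ) / π.q * x = -(μ * x / π.q) := by rw [hνμ]; ring
        rw [e1]
        by_cases h1 : u / Real.pi < μ * x / π.q
        · left
          linarith
        · right
          constructor
          · by_contra h2
            push Not at h1 h2
            apply hν
            rw [Finset.mem_image]
            refine ⟨μ, (hSmem μ).mpr ⟨⟨hμ1, ?_⟩, by linarith, h1⟩, hμ.symm⟩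
            apply Nat.le_floor
            have h3 : (μ : ℝ) * x ≤ u / Real.pi * π.q := by
              rw [div_le_iff₀ hq'] at h1
              exact h1
            have h4 : u / Real.pi ≤ u := div_le_self (by linarith) (by linarith)
            have h5 : (μ : ℝ) ≤ μ * x := by
              have : (0 : ℝ) ≤ μ := Nat.cast_nonneg _
              nlinarith
            nlinarith
          · rw [hνμ]
            have : (0 : ℝ) < μ := by exact_mod_cast hμ1
            have : 0 < (μ : ℝ) / π.q := by positivity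
            rw [neg_div]
            linarith
    refine hgoal.trans (le_of_eq ?_)
    unfold Pool.Agent.H11.PZ.hq
    ring
  have hE2 : ∀ μ ∈ S, ‖gh a H u x (-(μ : ℝ) / π.q) - Li a H u v₀ x (μ / π.q)‖ ≤ B := by
    intro μ hμ
    obtain ⟨_, h1, h2⟩ := (hSmem μ).mp hμ
    have h3 := (hF (-(μ : ℝ) / π.q)).2 (by
      have : -(μ : ℝ) / π.q * x = -(μ * x / π.q) := by ring
      rw [this]
      linarith) (by
      have : -(μ : ℝ) / π.q * x = -(μ * x / π.q) := by ring
      rw [this]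
      linarith)
    have e1 : -(-(μ : ℝ) / π.q) = μ / π.q := by ring
    rw [e1] at h3
    exact h3
  -- summability
  have hgs : Summable fun ν : ℤ => gh a H u x (ν / π.q) := by
    refine Summable.of_norm_bounded_eventually (hKs.mul_left B) ?_
    have : ((E : Set ℤ))ᶜ ∈ cofinite := E.finite_toSet.compl_mem_cofinite
    filter_upwards [this] with ν hν
    exact hE ν (by simpa using hν)
  have hSg := hpn π a H u x hx0 hH (by linarith) (by linarith) hgs
  have hSg' : Sg π a H u x = (1 / (π.q : ℂ)) * ∑' ν : ℤ, GI π ν * gh a H u x (ν / π.q) := hSg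
  -- decomposition
  have hfs : Summable fun ν : ℤ => GI π ν * gh a H u x (ν / π.q) := by
    apply Summable.of_norm_bounded (hgs.norm.mul_left (π.q : ℝ))
    intro ν
    rw [norm_mul]
    have := norm_GI π ν
    gcongr
  have hf2b : ∀ ν : ℤ, ‖(if ν ∈ E then 0 else GI π ν * gh a H u x (ν / π.q))‖
      ≤ π.q * B * Pool.Agent.H11.PZ.hq π.q ν := by
    intro ν
    split_ifs with hν
    · rw [norm_zero]
      have := hq_nonneg π.q ν
      positivity
    · rw [norm_mul, mul_assoc]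
      have h1 := norm_GI π ν
      have h2 := hE ν hν
      gcongr
  have hf2s : Summable fun ν : ℤ => if ν ∈ E then 0 else GI π ν * gh a H u x (ν / π.q) :=
    Summable.of_norm_bounded (hKs.mul_left _) hf2b
  have hf2n : ‖∑' ν : ℤ, if ν ∈ E then 0 else GI π ν * gh a H u x (ν / π.q)‖ ≤ π.q * B * K := by
    have h1 := (hKs.mul_left ((π.q : ℝ) * B)).hasSum
    have h2 := tsum_of_norm_bounded h1 hf2b
    rwa [tsum_mul_left, hK] at h2
  have hdec : ∑' ν : ℤ, GI π ν * gh a H u x (ν / π.q)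
      = ∑ ν ∈ E, GI π ν * gh a H u x (ν / π.q)
        + ∑' ν : ℤ, (if ν ∈ E then 0 else GI π ν * gh a H u x (ν / π.q)) := by
    rw [← sub_eq_iff_eq_add, ← hfs.tsum_sub hf2s]
    have h1 : ∀ ν ∉ E, GI π ν * gh a H u x (ν / π.q)
        - (if ν ∈ E then 0 else GI π ν * gh a H u x (ν / π.q)) = 0 := by
      intro ν hν
      rw [if_neg hν, sub_self]
    rw [tsum_eq_sum h1]
    refine Finset.sum_congr rfl fun ν hν => ?_
    rw [if_pos hν, sub_zero]
  have hEsum : ∑ ν ∈ E, GI π ν * gh a H u x (ν / π.q)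
      = ∑ μ ∈ S, Gs π μ * gh a H u x (-(μ : ℝ) / π.q) := by
    rw [Finset.sum_image (by
      intro μ _ μ' _ h
      have : (μ : ℤ) = μ' := by
        have h' : -(μ : ℤ) = -(μ' : ℤ) := h
        omega
      exact_mod_cast this)]
    refine Finset.sum_congr rfl fun μ _ => ?_
    rw [GI_neg]
    push_cast
    rfl
  have hMn : Mn π a H u v₀ x = (1 / (π.q : ℂ)) * ∑ μ ∈ S, Gs π μ * Li a H u v₀ x (μ / π.q) := by
    unfold Mn
    rw [hS]
  have hdiff : Sg π a H u x - Mn π a H u v₀ x = (1 / (π.q : ℂ)) *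
      (∑ μ ∈ S, Gs π μ * (gh a H u x (-(μ : ℝ) / π.q) - Li a H u v₀ x (μ / π.q))
        + ∑' ν : ℤ, (if ν ∈ E then 0 else GI π ν * gh a H u x (ν / π.q))) := by
    rw [hSg', hMn, hdec, hEsum]
    have : ∑ μ ∈ S, Gs π μ * (gh a H u x (-(μ : ℝ) / π.q) - Li a H u v₀ x (μ / π.q))
        = ∑ μ ∈ S, Gs π μ * gh a H u x (-(μ : ℝ) / π.q) - ∑ μ ∈ S, Gs π μ * Li a H u v₀ x (μ / π.q) := by
      rw [← Finset.sum_sub_distrib]
      exact Finset.sum_congr rfl fun μ _ => by ring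
    rw [this]
    ring
  have hfirst : ‖∑ μ ∈ S, Gs π μ * (gh a H u x (-(μ : ℝ) / π.q) - Li a H u v₀ x (μ / π.q))‖
      ≤ S.card * (π.q * B) := by
    refine (norm_sum_le _ _).trans ?_
    have h1 : ∀ μ ∈ S, ‖Gs π μ * (gh a H u x (-(μ : ℝ) / π.q) - Li a H u v₀ x (μ / π.q))‖
        ≤ π.q * B := by
      intro μ hμ
      rw [norm_mul, ← GI_neg]
      have h2 := norm_GI π (-(μ : ℤ))
      have h3 := hE2 μ hμ
      gcongr
    refine (Finset.sum_le_sum h1).trans ?_
    rw [Finset.sum_const, nsmul_eq_mul]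
  rw [hdiff, norm_mul, norm_div, norm_one, Complex.norm_natCast]
  have hBT : B * T ^ 2 = T ^ (-A) := by
    rw [← hB, ← Real.rpow_natCast T 2, ← Real.rpow_add hT0]
    congr 1
    push_cast
    ring
  calc 1 / (π.q : ℝ) * ‖_‖ ≤ 1 / (π.q : ℝ) * (S.card * (π.q * B) + π.q * B * K) := by
        gcongr
        exact (norm_add_le _ _).trans (add_le_add hfirst hf2n)
    _ = B * (S.card + K) := by field_simp
    _ ≤ B * (2 * π.q * T + K * T) := by
        gcongr
        nlinarith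
    _ = B * T * (2 * π.q + K) := by ring
    _ ≤ B * T * T := by gcongr
    _ = B * T ^ 2 := by ring
    _ = _ := hBT

end Pool.Agent.H11.PZ
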